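import Pool.Agent.E8helper43.MX.Den

/-!
# Block triangular matrices
-/

set_option autoImplicit false
set_option maxHeartbeats 4000000

open Matrix

namespace Pool.Agent.E8helper43.MX

open Pool.Agent.E8helper43.HS
open Pool.Agent.Y119.HY (cm E Am E_mul_neg E_zero Am_pow Ac_nil)

variable {m n : ℕ} {R : Type*} [CommRing R]

/-- the upper left block -/
def ul (M : Matrix (Fin (m + n)) (Fin (m + n)) R) : Matrix (Fin m) (Fin m) R := M.submatrix (Fin.castAdd n) (Fin.castAdd n)

/-- the upper right block -/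
def ur (M : Matrix (Fin (m + n)) (Fin (m + n)) R) : Matrix (Fin m) (Fin n) R := M.submatrix (Fin.castAdd n) (Fin.natAdd m)

/-- the lower left block -/
def ll (M : Matrix (Fin (m + n)) (Fin (m + n)) R) : Matrix (Fin n) (Fin m) R := M.submatrix (Fin.natAdd m) (Fin.castAdd n)

/-- the lower right block -/
def lr (M : Matrix (Fin (m + n)) (Fin (m + n)) R) : Matrix (Fin n) (Fin n) R := M.submatrix (Fin.natAdd m) (Fin.natAdd m)

lemma blk_ext {M N : Matrix (Fin (m + n)) (Fin (m + n)) R} (h1 : ul M = ul N) (h2 : ur M = ur N) (h3 : ll M = ll N)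
    (h4 : lr M = lr N) : M = N := by
  ext i j
  induction i using Fin.addCases with
  | left a =>
    induction j using Fin.addCases with
    | left b => exact congrFun (congrFun h1 a) b
    | right b => exact congrFun (congrFun h2 a) b
  | right a =>
    induction j using Fin.addCases with
    | left b => exact congrFun (congrFun h3 a) b
    | right b => exact congrFun (congrFun h4 a) b

lemma ul_mul (M N : Matrix (Fin (m + n)) (Fin (m + n)) R) : ul (M * N) = ul M * ul N + ur M * ll N := by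
  ext a b
  show (M * N) (Fin.castAdd n a) (Fin.castAdd n b) = _
  rw [Matrix.mul_apply, Fin.sum_univ_add]
  rfl

lemma ur_mul (M N : Matrix (Fin (m + n)) (Fin (m + n)) R) : ur (M * N) = ul M * ur N + ur M * lr N := by
  ext a b
  show (M * N) (Fin.castAdd n a) (Fin.natAdd m b) = _
  rw [Matrix.mul_apply, Fin.sum_univ_add]
  rfl

lemma ll_mul (M N : Matrix (Fin (m + n)) (Fin (m + n)) R) : ll (M * N) = ll M * ul N + lr M * ll N := by
  ext a b
  show (M * N) (Fin.natAdd m a) (Fin.castAdd n b) = _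
  rw [Matrix.mul_apply, Fin.sum_univ_add]
  rfl

lemma lr_mul (M N : Matrix (Fin (m + n)) (Fin (m + n)) R) : lr (M * N) = ll M * ur N + lr M * lr N := by
  ext a b
  show (M * N) (Fin.natAdd m a) (Fin.natAdd m b) = _
  rw [Matrix.mul_apply, Fin.sum_univ_add]
  rfl

lemma ul_one : ul (1 : Matrix (Fin (m + n)) (Fin (m + n)) R) = 1 := by
  ext a b
  show (1 : Matrix (Fin (m + n)) (Fin (m + n)) R) (Fin.castAdd n a) (Fin.castAdd n b) = _
  rw [Matrix.one_apply, Matrix.one_apply]
  congr 1
  exact propext (Fin.castAdd_injective m n).eq_iff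

lemma lr_one : lr (1 : Matrix (Fin (m + n)) (Fin (m + n)) R) = 1 := by
  ext a b
  show (1 : Matrix (Fin (m + n)) (Fin (m + n)) R) (Fin.natAdd m a) (Fin.natAdd m b) = _
  rw [Matrix.one_apply, Matrix.one_apply]
  congr 1
  exact propext (Fin.natAdd_injective n m).eq_iff

lemma cast_ne_nat (a : Fin m) (b : Fin n) : Fin.castAdd n a ≠ Fin.natAdd m b := by
  intro h
  have := congrArg Fin.val h
  simp only [Fin.val_castAdd, Fin.val_natAdd] at this
  omega

lemma ur_one : ur (1 : Matrix (Fin (m + n)) (Fin (m + n)) R) = 0 := by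
  ext a b
  show (1 : Matrix (Fin (m + n)) (Fin (m + n)) R) (Fin.castAdd n a) (Fin.natAdd m b) = _
  rw [Matrix.one_apply, if_neg (cast_ne_nat a b), Matrix.zero_apply]

lemma ll_one : ll (1 : Matrix (Fin (m + n)) (Fin (m + n)) R) = 0 := by
  ext a b
  show (1 : Matrix (Fin (m + n)) (Fin (m + n)) R) (Fin.natAdd m a) (Fin.castAdd n b) = _
  rw [Matrix.one_apply, if_neg (Ne.symm (cast_ne_nat b a)), Matrix.zero_apply]

/-- the matrix `[1, B; 0, C]` -/
def bt (B : Matrix (Fin m) (Fin n) R) (C : Matrix (Fin n) (Fin n) R) : Matrix (Fin (m + n)) (Fin (m + n)) R :=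
  Matrix.of fun i j => Fin.addCases (fun a => Fin.addCases (fun a' => if a = a' then 1 else 0) (fun b => B a b) j)
    (fun c => Fin.addCases (fun _ => 0) (fun b => C c b) j) i

variable (B : Matrix (Fin m) (Fin n) R) (C : Matrix (Fin n) (Fin n) R)

@[simp] lemma ul_bt : ul (bt B C) = 1 := by
  ext a b
  show bt B C (Fin.castAdd n a) (Fin.castAdd n b) = _
  unfold bt
  rw [Matrix.of_apply, Matrix.one_apply]
  simp

@[simp] lemma ur_bt : ur (bt B C) = B := by
  ext a b
  show bt B C (Fin.castAdd n a) (Fin.natAdd m b) = _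
  unfold bt
  rw [Matrix.of_apply]
  simp

@[simp] lemma ll_bt : ll (bt B C) = 0 := by
  ext a b
  show bt B C (Fin.natAdd m a) (Fin.castAdd n b) = _
  unfold bt
  rw [Matrix.of_apply]
  simp

@[simp] lemma lr_bt : lr (bt B C) = C := by
  ext a b
  show bt B C (Fin.natAdd m a) (Fin.natAdd m b) = _
  unfold bt
  rw [Matrix.of_apply]
  simp

lemma bt_mul (B' : Matrix (Fin m) (Fin n) R) (C' : Matrix (Fin n) (Fin n) R) :
    bt B C * bt B' C' = bt (B' + B * C') (C * C') := by
  apply blk_ext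
  · rw [ul_mul]; simp
  · rw [ur_mul]; simp
  · rw [ll_mul]; simp
  · rw [lr_mul]; simp

lemma bt_one : bt (0 : Matrix (Fin m) (Fin n) R) 1 = 1 := by
  apply blk_ext
  · rw [ul_one]; simp
  · rw [ur_one]; simp
  · rw [ll_one]; simp
  · rw [lr_one]; simp

lemma eq_bt {M : Matrix (Fin (m + n)) (Fin (m + n)) R} (h1 : ul M = 1) (h2 : ll M = 0) : M = bt (ur M) (lr M) := by
  apply blk_ext
  · rw [h1]; simp
  · simp
  · rw [h2]; simp
  · simp

/-! ### the exponential -/

lemma E_apply {d : ℕ} (c : ℂ) (i j : Fin d) : E (cm (Am d)) c i j =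
    if (i : ℕ) ≤ j then c ^ ((j : ℕ) - i) / (((j : ℕ) - i).factorial : ℂ) else 0 := by
  unfold E
  rw [Matrix.sum_apply]
  have h1 : ∀ l : ℕ, ((c ^ l / (l.factorial : ℂ)) • cm (Am d) ^ l) i j =
      if (j : ℕ) = i + l then c ^ l / (l.factorial : ℂ) else 0 := by
    intro l
    rw [Matrix.smul_apply, ← Pool.Agent.Y119.HY.cm_pow, Pool.Agent.Y119.HY.cm_apply, Am_pow, smul_eq_mul]
    split_ifs <;> simp
  simp only [h1]
  split_ifs with h
  · rw [Finset.sum_eq_single ((j : ℕ) - i)]
    · rw [if_pos (by omega)]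
    · intro b _ hb
      rw [if_neg (by omega)]
    · intro h'
      rw [Finset.mem_range] at h'
      have := j.2
      omega
  · exact Finset.sum_eq_zero fun l _ => if_neg (by omega)

lemma ul_E (c : ℂ) : ul (E (cm (Am (m + n))) c) = E (cm (Am m)) c := by
  ext a b
  show E (cm (Am (m + n))) c (Fin.castAdd n a) (Fin.castAdd n b) = _
  rw [E_apply, E_apply]
  rfl

lemma ll_E (c : ℂ) : ll (E (cm (Am (m + n))) c) = 0 := by
  ext a b
  show E (cm (Am (m + n))) c (Fin.natAdd m a) (Fin.castAdd n b) = _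
  rw [E_apply, if_neg, Matrix.zero_apply]
  simp only [Fin.val_castAdd, Fin.val_natAdd]
  omega

lemma lr_E (c : ℂ) : lr (E (cm (Am (m + n))) c) = E (cm (Am n)) c := by
  ext a b
  show E (cm (Am (m + n))) c (Fin.natAdd m a) (Fin.natAdd m b) = _
  rw [E_apply, E_apply]
  simp only [Fin.val_natAdd]
  have h1 : (m + (b : ℕ) - (m + a)) = b - a := by omega
  rw [h1]
  by_cases h : (a : ℕ) ≤ b
  · rw [if_pos (by omega), if_pos h]
  · rw [if_neg (by omega), if_neg h]

end Pool.Agent.E8helper43.MX
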