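import Pool.Agent.E8helper43.HS.GGi

/-!
# Hypergeometric systems with exponents `0` and rational non-integers at infinity
-/

set_option autoImplicit false
set_option maxHeartbeats 4000000

open PowerSeries

namespace Pool.Agent.E8helper43.MX

open Pool.Agent.Y113 (SDc)
open Pool.Agent.E8helper43.HS
open Pool.Agent.Y119.HY (cm Sol Hf Ep E Am um Bm kx aq hq Hq uq SL Hq_zero lin_eq aq_succ Am_mul)

variable {n : ℕ}

lemma qg_sum {β : Fin n → ℚ} (hn : 2 ≤ n) (hs : ∑ i, β i = 0) : QG n (QL β) := by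
  have hdeg : (QL β).natDegree = n := by
    unfold QL
    rw [Polynomial.natDegree_prod_of_monic _ _ fun i _ => Polynomial.monic_X_sub_C _]
    simp
  refine ⟨hn, QL_monic β, hdeg, ?_⟩
  have h1 : (QL β).nextCoeff = -∑ i, β i := by
    unfold QL
    exact Polynomial.prod_X_sub_C_nextCoeff β
  rw [Polynomial.nextCoeff_of_natDegree_pos (by rw [hdeg]; omega), hdeg, hs, neg_zero] at h1
  exact h1

/-- the exponents: zero or not an integer -/
def Ok (β : Fin n → ℚ) : Prop := ∀ i, β i = 0 ∨ ∀ l : ℕ, (l : ℚ) + -β i ≠ 0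

lemma kx_inv {k : ℕ} : (kx (k + 1))⁻¹ = C (1 / ((k : ℚ) + 1)) * (1 + C (1 / ((k : ℚ) + 1)) * X)⁻¹ := by
  have hk : ((k : ℚ) + 1) ≠ 0 := by positivity
  have h1 : kx (k + 1) = C ((k : ℚ) + 1) * (1 + C (1 / ((k : ℚ) + 1)) * X) := by
    unfold kx
    rw [mul_add, mul_one, ← mul_assoc, ← map_mul, mul_one_div_cancel hk, map_one, one_mul]
    push_cast
    rfl
  have h2 : (1 + C (1 / ((k : ℚ) + 1)) * X : ℚ⟦X⟧) * (1 + C (1 / ((k : ℚ) + 1)) * X)⁻¹ = 1 :=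
    PowerSeries.mul_inv_cancel _ (by simp)
  have h3 : kx (k + 1) * (C (1 / ((k : ℚ) + 1)) * (1 + C (1 / ((k : ℚ) + 1)) * X)⁻¹) = 1 := by
    rw [h1]
    calc C ((k : ℚ) + 1) * (1 + C (1 / ((k : ℚ) + 1)) * X) * (C (1 / ((k : ℚ) + 1)) * (1 + C (1 / ((k : ℚ) + 1)) * X)⁻¹) =
          (C ((k : ℚ) + 1) * C (1 / ((k : ℚ) + 1))) *
            ((1 + C (1 / ((k : ℚ) + 1)) * X) * (1 + C (1 / ((k : ℚ) + 1)) * X)⁻¹) := by ring
      _ = 1 := by rw [h2, ← map_mul, mul_one_div_cancel hk, map_one, one_mul]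
  have h4 := Pool.Agent.Y119.HY.kx_succ_mul_inv k
  calc (kx (k + 1))⁻¹ = (kx (k + 1) * (C (1 / ((k : ℚ) + 1)) * (1 + C (1 / ((k : ℚ) + 1)) * X)⁻¹)) * (kx (k + 1))⁻¹ := by
        rw [h3, one_mul]
    _ = (C (1 / ((k : ℚ) + 1)) * (1 + C (1 / ((k : ℚ) + 1)) * X)⁻¹) * (kx (k + 1) * (kx (k + 1))⁻¹) := by ring
    _ = _ := by rw [h4, mul_one]

lemma uq_zero (k : ℕ) : uq 0 (k + 1) = X * (kx (k + 1))⁻¹ := by
  induction k with
  | zero =>
    unfold uq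
    simp
  | succ k ih =>
    have h1 : uq 0 (k + 1 + 1) = uq 0 (k + 1) * ((C (((k + 1 : ℕ) : ℚ) + 0) + X) * (kx (k + 1 + 1))⁻¹) := by
      unfold uq
      rw [Finset.prod_range_succ]
    have h2 : (C (((k + 1 : ℕ) : ℚ) + 0) + X : ℚ⟦X⟧) = kx (k + 1) := by
      unfold kx
      rw [add_zero]
    have h3 := Pool.Agent.Y119.HY.kx_succ_mul_inv k
    rw [h1, ih, h2]
    calc X * (kx (k + 1))⁻¹ * (kx (k + 1) * (kx (k + 1 + 1))⁻¹) = X * (kx (k + 1) * (kx (k + 1))⁻¹) * (kx (k + 1 + 1))⁻¹ := by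
          ring
      _ = _ := by rw [h3, mul_one]

/-- the factors have geometric denominators -/
lemma uq_gen {γ : ℚ} (hγ : γ = 0 ∨ ∀ l : ℕ, (l : ℚ) + γ ≠ 0) {k K L : ℕ} (hk : k ≤ K)
    (hL : ∀ i : ℕ, 1 ≤ i → i ≤ K * γ.den + γ.num.natAbs + K → i ∣ L) :
    ∃ w ∈ SL L, ∃ c : ℚ, (∃ a : ℤ, (((γ.den : ℚ) ^ 2) ^ k * L) * c = a) ∧ uq γ k = C c * w := by
  rcases hγ with h0 | hγ
  · subst h0
    rcases k with _ | k
    · refine ⟨1, (SL L).one_mem, 1, ⟨L, by simp⟩, ?_⟩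
      unfold uq
      simp
    · have h1 : (k + 1) ∣ L := hL (k + 1) (by omega) (by simp; omega)
      obtain ⟨q, hq⟩ := h1
      have hk0 : ((k : ℚ) + 1) ≠ 0 := by positivity
      have hLq : ∃ a : ℤ, (L : ℚ) * (1 / ((k : ℚ) + 1)) = a := ⟨q, by
        rw [hq]
        push_cast
        field_simp⟩
      refine ⟨X * (1 + C (1 / ((k : ℚ) + 1)) * X)⁻¹, ?_, 1 / ((k : ℚ) + 1), ?_, ?_⟩
      · refine (SL L).mul_mem (Pool.Agent.Y119.HY.SL_X L) (Pool.Agent.Y119.HY.SL_inv (Pool.Agent.Y119.HY.SL_lin hLq) (by simp))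
      · obtain ⟨a, ha⟩ := hLq
        refine ⟨a, ?_⟩
        rw [mul_assoc, ha]
        simp
      · rw [uq_zero, kx_inv]
        ring
  · obtain ⟨w, hw, hw'⟩ := Pool.Agent.Y119.HY.uq_eq hγ hk hL
    obtain ⟨a, ha⟩ := Pool.Agent.Y119.HY.poch_int γ k
    refine ⟨w, hw, _, ⟨a * L, ?_⟩, hw'⟩
    push_cast
    rw [← ha]
    ring

/-- the denominators -/
lemma hq_den' {β : Fin n → ℚ} (hβ : Ok β) :
    ∃ A : ℝ, ∀ K, ∃ d : ℕ, 0 < d ∧ (d : ℝ) ≤ A ^ (K + 1) ∧ ∀ k ≤ K, ∀ i j : ℕ, j < n →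
      ∃ a : ℤ, (d : ℚ) * hq n (QL β) k i j = a := by
  set Bd : ℕ := 1 + ∑ i, ((β i).den + (β i).num.natAbs) with hBd
  have hBi : ∀ i, (β i).den + (β i).num.natAbs + 1 ≤ Bd := by
    intro i
    have := Finset.single_le_sum (f := fun i => (β i).den + (β i).num.natAbs) (fun _ _ => Nat.zero_le _) (Finset.mem_univ i)
    omega
  set M : ℕ := ∏ i, ((β i).den ^ 2) with hM
  have hM1 : 1 ≤ M := by
    rw [hM]
    refine Nat.succ_le_of_lt (Finset.prod_pos fun i _ => ?_)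
    have := (β i).den_pos
    positivity
  refine ⟨(M : ℝ) * ((2 ^ 8) ^ Bd) ^ (2 * n), fun K => ?_⟩
  set L : ℕ := Nat.lcmUpto (K * Bd + Bd) with hL
  have hL0 : 0 < L := Nat.lcmUpto_pos _
  have hLd : ∀ γ : ℚ, γ.den + γ.num.natAbs + 1 ≤ Bd → ∀ i : ℕ, 1 ≤ i → i ≤ K * γ.den + γ.num.natAbs + K → i ∣ L := by
    intro γ hγ i h1 h2
    refine Pool.Agent.Y113.dvd_lcmUpto h1 (h2.trans ?_)
    have h3 : K * (γ.den + 1) ≤ K * Bd := Nat.mul_le_mul_left _ (by omega)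
    rw [mul_add, mul_one] at h3
    omega
  refine ⟨M ^ K * L ^ (2 * n), by positivity, ?_, fun k hk i j hj => ?_⟩
  · push_cast
    have h1 : (L : ℝ) ≤ (2 ^ 8) ^ (K * Bd + Bd) := Pool.Agent.Y113.lcm_bound _
    have hM1' : (1 : ℝ) ≤ M := by exact_mod_cast hM1
    calc (M : ℝ) ^ K * (L : ℝ) ^ (2 * n) ≤ (M : ℝ) ^ (K + 1) * ((2 ^ 8) ^ (K * Bd + Bd)) ^ (2 * n) :=
          mul_le_mul (pow_le_pow_right₀ hM1' (Nat.le_succ K)) (pow_le_pow_left₀ (by positivity) h1 _) (by positivity)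
            (by positivity)
      _ = _ := by
          rw [mul_pow]
          congr 1
          generalize ((2 : ℝ) ^ 8) = B
          rw [← pow_mul, ← pow_mul, ← pow_mul]
          congr 1
          ring
  · -- the factors
    have hm2 : ∀ i, ∃ w ∈ SL L, ∃ c : ℚ, (∃ a : ℤ, ((((-β i).den : ℚ) ^ 2) ^ k * L) * c = a) ∧ uq (-β i) k = C c * w := fun i =>
      uq_gen ((hβ i).imp (fun h => by rw [h, neg_zero]) fun h => h) hk (hLd _ (by
        rw [Rat.neg_den, Rat.neg_num, Int.natAbs_neg]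
        exact hBi i))
    choose w2 hw2 c hc hw2' using hm2
    have haq : aq n (QL β) k = C (∏ i, c i) * ∏ i, w2 i := by
      rw [aq_QL, map_prod, ← Finset.prod_mul_distrib]
      refine Finset.prod_congr rfl fun i _ => ?_
      rw [hw2' i]
    have hcM : ∃ a : ℤ, ((M : ℚ) ^ k * (L : ℚ) ^ n) * ∏ i, c i = a := by
      choose b hb using hc
      refine ⟨∏ i, b i, ?_⟩
      have e1 : (L : ℚ) ^ n = ∏ _i : Fin n, (L : ℚ) := by
        rw [Finset.prod_const, Finset.card_univ, Fintype.card_fin]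
      rw [hM, e1]
      push_cast
      rw [← Finset.prod_pow, ← Finset.prod_mul_distrib, ← Finset.prod_mul_distrib]
      refine Finset.prod_congr rfl fun i _ => ?_
      rw [← hb i, Rat.neg_den]
    obtain ⟨a, ha⟩ := hcM
    have hmem : kx k ^ i * ∏ i, w2 i ∈ SL L := by
      refine (SL L).mul_mem ((SL L).pow_mem ((SL L).add_mem ?_ (Pool.Agent.Y119.HY.SL_X L)) _)
        ((SL L).prod_mem fun i _ => hw2 i)
      have := Pool.Agent.Y119.HY.SL_C L (k : ℤ)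
      exact_mod_cast this
    obtain ⟨b, hb⟩ := Pool.Agent.Y119.HY.SL_coeff hmem j
    refine ⟨(M : ℤ) ^ (K - k) * a * ((L : ℤ) ^ (n - j) * b), ?_⟩
    unfold hq
    rw [haq, show kx k ^ i * (C (∏ i, c i) * ∏ i, w2 i) = C (∏ i, c i) * (kx k ^ i * ∏ i, w2 i) by ring,
      PowerSeries.coeff_C_mul]
    push_cast
    rw [← ha, ← hb]
    have e1 : (M : ℚ) ^ K = (M : ℚ) ^ (K - k) * (M : ℚ) ^ k := by rw [← pow_add]; congr 1; omega
    have e2 : (L : ℚ) ^ (2 * n) = (L : ℚ) ^ n * ((L : ℚ) ^ (n - j) * (L : ℚ) ^ j) := by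
      rw [← pow_add, ← pow_add]
      congr 1
      omega
    rw [e1, e2]
    ring

theorem sdc_Hq' {β : Fin n → ℚ} (hβ : Ok β) (hQ : QG n (QL β)) (i j : Fin n) :
    SDc (mp (Hq n (QL β)) i j) := by
  refine Pool.Agent.Y119.HY.sdc_of ?_ ?_
  · obtain ⟨A, hA⟩ := Pool.Agent.Y119.HY.PG.exp ((sol_Hq hQ).growth Pool.Agent.Y119.HY.Ac_nil i j)
    refine ⟨A, fun k => ?_⟩
    have h1 := hA k
    unfold Hk at h1
    rw [Pool.Agent.Y119.HY.cm_apply] at h1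
    unfold mp
    rw [Matrix.of_apply, PowerSeries.coeff_mk]
    refine le_trans (le_of_eq ?_) h1
    have e1 : ((Hq n (QL β) k i j : ℚ) : ℂ) = (((Hq n (QL β) k i j : ℚ) : ℝ) : ℂ) := by push_cast; rfl
    rw [e1, Complex.norm_real, Real.norm_eq_abs]
  · obtain ⟨A, hA⟩ := hq_den' hβ
    refine ⟨A, fun K => ?_⟩
    obtain ⟨d, hd0, hd, hd'⟩ := hA K
    refine ⟨d, hd0, hd, fun k hk => ?_⟩
    unfold mp
    rw [Matrix.of_apply, PowerSeries.coeff_mk]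
    exact hd' k hk i j j.2

/-- **the system is a system of G-functions** -/
theorem gs_of' {β : Fin n → ℚ} (hn : 2 ≤ n) (hs : ∑ i, β i = 0) (hβ : Ok β) : GS (An n) (Bm n (QL β)) (Hq n (QL β)) := by
  have hQ := qg_sum hn hs
  have hs := sdc_Hq' hβ hQ
  refine ⟨An_nil, Hq_zero, step_m hQ, hs, (mp (Hq n (QL β))).adjugate, ?_, SDc_adj hs⟩
  rw [Matrix.mul_adjugate, det_Hq hQ, one_smul]

end Pool.Agent.E8helper43.MX
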