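import Pool.Agent.E8helper43.MX.Tup

/-!
# The group of the mixed systems
-/

set_option autoImplicit false
set_option maxHeartbeats 4000000

open Filter Topology Matrix

namespace Pool.Agent.E8helper43.MX

open Pool.Agent.E8helper43.HS
open Pool.Agent.Y119.HY (cm Sol Hf Ep E Ep_eval E_neg E_zero E_mul_neg E_add Yf Rel Gal Lens Am Bm kx aq hq Hq Hq_zero uc ps
  mv_apply Ac_nil uq Jm QD)

variable {m n : ℕ}

/-- the group of the quotient -/
def Cls (β : Fin n → ℚ) : Set (Matrix (Fin n) (Fin n) ℂ) := {g | g.det = 1 ∧ (Sym β → g.transpose * Jc β * g = Jc β)}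

/-- the group -/
def Gm (m : ℕ) (β : Fin n → ℚ) : Set (Matrix (Fin (m + n)) (Fin (m + n)) ℂ) := {g | ul g = 1 ∧ ll g = 0 ∧ lr g ∈ Cls β}

lemma Cls_mul {β : Fin n → ℚ} {g h : Matrix (Fin n) (Fin n) ℂ} (hg : g ∈ Cls β) (hh : h ∈ Cls β) : g * h ∈ Cls β := by
  refine ⟨by rw [det_mul, hg.1, hh.1, one_mul], fun hs => ?_⟩
  rw [transpose_mul]
  calc h.transpose * g.transpose * Jc β * (g * h) = h.transpose * (g.transpose * Jc β * g) * h := by
        simp only [Matrix.mul_assoc]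
    _ = Jc β := by rw [hg.2 hs, hh.2 hs]

lemma Cls_inv {β : Fin n → ℚ} {g h : Matrix (Fin n) (Fin n) ℂ} (hg : g ∈ Cls β) (h1 : h * g = 1) : h ∈ Cls β := by
  have h2 : g * h = 1 := mul_eq_one_comm.1 h1
  refine ⟨?_, fun hs => ?_⟩
  · have h3 := congrArg Matrix.det h1
    rw [det_mul, hg.1, mul_one, det_one] at h3
    exact h3
  · calc h.transpose * Jc β * h = h.transpose * (g.transpose * Jc β * g) * h := by rw [hg.2 hs]
      _ = (g * h).transpose * Jc β * (g * h) := by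
        rw [transpose_mul]
        simp only [Matrix.mul_assoc]
      _ = Jc β := by rw [h2, transpose_one, one_mul, mul_one]

lemma Cls_E {β : Fin n → ℚ} (s : ℂ) : E (cm (Am n)) s ∈ Cls β :=
  ⟨det_E Ac_nil s, fun _ => Pool.Agent.Y119.HY.E_isom Ac_nil Pool.Agent.Y119.HY.Jc_rel s⟩

lemma Ys_Yf {t : ℕ} (N : Matrix (Fin n) (Fin n) ℤ) (H : ℕ → Matrix (Fin n) (Fin n) ℚ) :
    Ys N H t = Yf (cm (nq N)) (Hk H) (((1 / (t : ℝ) : ℝ)) : ℂ) := by
  unfold Ys Yf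
  congr 2
  rw [← Complex.ofReal_log (by positivity), one_div, Real.log_inv]
  push_cast
  rfl

lemma Cls_Ys {β : Fin n → ℚ} (h : BD β) {t : ℕ} (ht : 2 ≤ t) : Ys (An n) (Hq n (QL β)) t ∈ Cls β := by
  have ht' : (2 : ℝ) ≤ t := by exact_mod_cast ht
  have h0 : 0 < 1 / (t : ℝ) := by positivity
  have h1 : 1 / (t : ℝ) < 1 := by rw [div_lt_one (by linarith)]; linarith
  refine ⟨?_, fun hs => ?_⟩
  · unfold Ys
    rw [nq_An, det_mul, det_E Ac_nil, mul_one]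
    exact det_Hf (gs_of h) (det_Hq (qg_of h)) h0 h1
  · rw [Ys_Yf, nq_An]
    exact Yf_J h hs h0 h1

lemma ul_Ys (β : Fin n → ℚ) (t : ℕ) : ul (Ys (An (m + n)) (Hq (m + n) (QL (zb m β))) t) =
    E (cm (Am m)) (-((Real.log t : ℝ) : ℂ)) := by
  unfold Ys
  rw [nq_An, ul_mul, ul_Hf, ul_E, ll_E]
  simp

lemma ll_Ys (β : Fin n → ℚ) (t : ℕ) : ll (Ys (An (m + n)) (Hq (m + n) (QL (zb m β))) t) = 0 := by
  unfold Ys
  rw [nq_An, ll_mul, ll_Hf, ll_E]
  simp

lemma lr_Ys (β : Fin n → ℚ) (t : ℕ) : lr (Ys (An (m + n)) (Hq (m + n) (QL (zb m β))) t) =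
    Ys (An n) (Hq n (QL β)) t := by
  unfold Ys
  rw [nq_An, nq_An, lr_mul, ll_Hf, lr_Hf, lr_E]
  simp

lemma det_Ys (m : ℕ) {β : Fin n → ℚ} (h : BD β) {t : ℕ} (ht : 2 ≤ t) :
    (Ys (An (m + n)) (Hq (m + n) (QL (zb m β))) t).det = 1 := by
  have ht' : (2 : ℝ) ≤ t := by exact_mod_cast ht
  have h0 : 0 < 1 / (t : ℝ) := by positivity
  have h1 : 1 / (t : ℝ) < 1 := by rw [div_lt_one (by linarith)]; linarith
  unfold Ys
  rw [nq_An, det_mul, det_E Ac_nil, mul_one]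
  exact det_Hf (gs_zb m h) (det_Hq (qg_zb m h)) h0 h1

/-- the group preserves the relations -/
lemma Gm_gal (m : ℕ) {β : Fin n → ℚ} (h : BD β) (hd : (¬ Eqv β fun j => -β j) ∨ Sym β) {g : Matrix (Fin (m + n)) (Fin (m + n)) ℂ}
    (hg : g ∈ Gm m β) (s : ℂ) : E (cm (nq (An (m + n)))) s * g * E (cm (nq (An (m + n)))) (-s) ∈
      Gal (Yf (cm (nq (An (m + n)))) (Hk (Hq (m + n) (QL (zb m β))))) := by
  rw [nq_An]
  set M := E (cm (Am (m + n))) s * g * E (cm (Am (m + n))) (-s) with hM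
  obtain ⟨h1, h2, h3⟩ := hg
  have e1 : ul M = 1 := by
    rw [hM, ul_mul, ul_mul, ul_E, ul_E, ll_E, h1, h2, Matrix.mul_zero, Matrix.mul_zero, add_zero, add_zero, mul_one]
    exact E_mul_neg Ac_nil s
  have e2 : ll M = 0 := by
    rw [hM, ll_mul, ll_mul, ll_E, ll_E, h2]
    simp
  have e3 : lr M = E (cm (Am n)) s * lr g * E (cm (Am n)) (-s) := by
    rw [hM, lr_mul, lr_mul, ll_mul, ll_E, lr_E, lr_E, h2]
    simp
  have e4 : lr M ∈ Cls β := by
    rw [e3]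
    exact Cls_mul (Cls_mul (Cls_E s) h3) (Cls_E _)
  rw [eq_bt e1 e2]
  rcases hd with hd | hd
  · exact sl_mix m h hd _ _ e4.1
  · exact sp_mix m h hd _ _ (e4.2 hd)

/-- the points of the torsor -/
lemma tor_pt (m : ℕ) {β : Fin n → ℚ} (h : BD β) {t : ℕ} (ht : 2 ≤ t) (l : ℂ) {X : Matrix (Fin (m + n)) (Fin (m + n)) ℂ}
    (h1 : ul X = E (cm (Am m)) (-l)) (h2 : ll X = 0) (h3 : lr X ∈ Cls β) :
    ∃ g ∈ Gm m β, Ys (An (m + n)) (Hq (m + n) (QL (zb m β))) t * g *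
      E (cm (nq (An (m + n)))) (((Real.log t : ℝ) : ℂ) - l) = X := by
  set Y := Ys (An (m + n)) (Hq (m + n) (QL (zb m β))) t with hY
  set L : ℂ := ((Real.log t : ℝ) : ℂ) with hL
  set W := Y⁻¹ with hW
  have hYW : Y * W = 1 := mul_nonsing_inv _ (by rw [hY, det_Ys m h ht]; exact isUnit_one)
  have hWY : W * Y = 1 := mul_eq_one_comm.1 hYW
  have hEm : E (cm (Am m)) (-L) * E (cm (Am m)) L = 1 := by
    have := E_mul_neg (N := cm (Am m)) Ac_nil (-L)
    rwa [neg_neg] at this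
  have hEm' : E (cm (Am m)) L * E (cm (Am m)) (-L) = 1 := E_mul_neg Ac_nil L
  have w1 : ll W = 0 := by
    have e1 := congrArg ll hWY
    rw [ll_mul, hY, ul_Ys, ll_Ys, ll_one, Matrix.mul_zero, add_zero] at e1
    calc ll W = ll W * (E (cm (Am m)) (-L) * E (cm (Am m)) L) := by rw [hEm, Matrix.mul_one]
      _ = 0 := by rw [← Matrix.mul_assoc, e1, Matrix.zero_mul]
  have w2 : ul W = E (cm (Am m)) L := by
    have e1 := congrArg ul hWY
    rw [ul_mul, hY, ul_Ys, ll_Ys, ul_one, Matrix.mul_zero, add_zero] at e1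
    calc ul W = ul W * (E (cm (Am m)) (-L) * E (cm (Am m)) L) := by rw [hEm, Matrix.mul_one]
      _ = E (cm (Am m)) L := by rw [← Matrix.mul_assoc, e1, Matrix.one_mul]
  have w3 : lr W * Ys (An n) (Hq n (QL β)) t = 1 := by
    have e1 := congrArg lr hWY
    rwa [lr_mul, w1, Matrix.zero_mul, zero_add, hY, lr_Ys, lr_one] at e1
  have w4 : lr W ∈ Cls β := Cls_inv (Cls_Ys h ht) w3
  refine ⟨W * X * E (cm (nq (An (m + n)))) (l - L), ⟨?_, ?_, ?_⟩, ?_⟩
  · rw [nq_An, ul_mul, ll_E, Matrix.mul_zero, add_zero, ul_mul, h2, Matrix.mul_zero, add_zero, w2, h1, ul_E,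
      ← E_add Ac_nil, ← E_add Ac_nil]
    have e1 : L + -l + (l - L) = 0 := by ring
    rw [e1]
    exact E_zero Ac_nil
  · rw [nq_An, ll_mul, ll_E, Matrix.mul_zero, add_zero, ll_mul, h2, Matrix.mul_zero, add_zero, w1, Matrix.zero_mul,
      Matrix.zero_mul]
  · have e1 : lr (W * X * E (cm (nq (An (m + n)))) (l - L)) = lr W * lr X * E (cm (Am n)) (l - L) := by
      rw [nq_An, lr_mul, lr_mul, ll_mul, w1, h2, lr_E]
      simp
    rw [e1]
    exact Cls_mul (Cls_mul w4 h3) (Cls_E _)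
  · rw [nq_An]
    have e1 : E (cm (Am (m + n))) (l - L) * E (cm (Am (m + n))) (L - l) = 1 := by
      have := E_mul_neg (N := cm (Am (m + n))) Ac_nil (l - L)
      rwa [neg_sub] at this
    calc Y * (W * X * E (cm (Am (m + n))) (l - L)) * E (cm (Am (m + n))) (L - l) =
          (Y * W) * X * (E (cm (Am (m + n))) (l - L) * E (cm (Am (m + n))) (L - l)) := by simp only [Matrix.mul_assoc]
      _ = X := by rw [hYW, e1, one_mul, mul_one]

end Pool.Agent.E8helper43.MX
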