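import Pool.Agent.E8helper43.MX.One

/-!
# The blocks of the mixed system, the symplectic case
-/

set_option autoImplicit false
set_option maxHeartbeats 4000000

open Filter Topology Matrix

namespace Pool.Agent.E8helper43.MX

open Pool.Agent.E8helper43.HS
open Pool.Agent.Y119.HY (cm Sol Hf Ep E Ep_eval E_neg E_zero E_mul_neg E_add Yf Rel Gal Lens mem_Lens slit_Lens real_mem_Lens
  symm_Lens Hf_an Hf_zero exists_sol Am Bm kx aq hq Hq Hq_zero uc ps pl pl_eval pl_coeff mv_apply Ac_nil uq Jm QD)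

variable {m n : ℕ}

lemma aq_zb (β : Fin n → ℚ) (k : ℕ) : aq (m + n) (QL (zb m β)) (k + 1) =
    PowerSeries.X ^ m * ((kx (k + 1))⁻¹) ^ m * aq n (QL β) (k + 1) := by
  rw [aq_QL, aq_QL, Fin.prod_univ_add]
  have h1 : ∏ a : Fin m, uq (-zb m β (Fin.castAdd n a)) (k + 1) = (PowerSeries.X * (kx (k + 1))⁻¹) ^ m := by
    have h2 : ∀ a : Fin m, uq (-zb m β (Fin.castAdd n a)) (k + 1) = PowerSeries.X * (kx (k + 1))⁻¹ := by
      intro a
      unfold zb
      rw [Fin.append_left, neg_zero, uq_zero]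
    simp only [h2]
    rw [Finset.prod_const, Finset.card_univ, Fintype.card_fin]
  have h2 : ∀ b : Fin n, uq (-zb m β (Fin.natAdd m b)) (k + 1) = uq (-β b) (k + 1) := by
    intro b
    unfold zb
    rw [Fin.append_right]
  rw [h1, mul_pow]
  simp only [h2]

lemma coeff_Xpow (p : PowerSeries ℚ) {j : ℕ} (hj : j < m) : PowerSeries.coeff j (PowerSeries.X ^ m * p) = 0 :=
  (PowerSeries.X_pow_dvd_iff.1 (Dvd.intro p rfl)) j hj

lemma Hq_left (β : Fin n → ℚ) (k : ℕ) (i : Fin (m + n)) (b : Fin m) :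
    Hq (m + n) (QL (zb m β)) (k + 1) i (Fin.castAdd n b) = 0 := by
  unfold Hq hq
  rw [Matrix.of_apply, aq_zb]
  have e1 : kx (k + 1) ^ (i : ℕ) * (PowerSeries.X ^ m * (kx (k + 1))⁻¹ ^ m * aq n (QL β) (k + 1)) =
      PowerSeries.X ^ m * (kx (k + 1) ^ (i : ℕ) * ((kx (k + 1))⁻¹ ^ m * aq n (QL β) (k + 1))) := by ring
  rw [e1, coeff_Xpow _ (by simp)]

lemma Hq_lr (β : Fin n → ℚ) (k : ℕ) (a b : Fin n) :
    Hq (m + n) (QL (zb m β)) k (Fin.natAdd m a) (Fin.natAdd m b) = Hq n (QL β) k a b := by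
  rcases k with _ | k
  · rw [Hq_zero, Hq_zero]
    exact congrFun (congrFun lr_one a) b
  · unfold Hq hq
    rw [Matrix.of_apply, Matrix.of_apply, aq_zb]
    have h1 : kx (k + 1) ^ m * (kx (k + 1))⁻¹ ^ m = 1 := by
      rw [← mul_pow, Pool.Agent.Y119.HY.kx_succ_mul_inv, one_pow]
    have e1 : kx (k + 1) ^ ((Fin.natAdd m a : Fin (m + n)) : ℕ) * (PowerSeries.X ^ m * (kx (k + 1))⁻¹ ^ m * aq n (QL β) (k + 1)) =
        (kx (k + 1) ^ (a : ℕ) * aq n (QL β) (k + 1)) * PowerSeries.X ^ m := by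
      rw [Fin.val_natAdd, pow_add]
      linear_combination (kx (k + 1) ^ (a : ℕ) * aq n (QL β) (k + 1) * PowerSeries.X ^ m) * h1
    rw [e1, Fin.val_natAdd, add_comm m (b : ℕ), PowerSeries.coeff_mul_X_pow]

lemma Hk_left (β : Fin n → ℚ) (k : ℕ) (i : Fin (m + n)) (b : Fin m) :
    Hk (Hq (m + n) (QL (zb m β))) k i (Fin.castAdd n b) = if k = 0 then (1 : Matrix (Fin (m + n)) (Fin (m + n)) ℂ) i (Fin.castAdd n b)
      else 0 := by
  unfold Hk
  rw [Pool.Agent.Y119.HY.cm_apply]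
  rcases k with _ | k
  · rw [if_pos rfl, Hq_zero, Matrix.one_apply, Matrix.one_apply]
    split_ifs <;> simp
  · rw [if_neg (Nat.succ_ne_zero k), Hq_left, Rat.cast_zero]

lemma Hf_left (β : Fin n → ℚ) (z : ℂ) (i : Fin (m + n)) (b : Fin m) :
    Hf (Hk (Hq (m + n) (QL (zb m β)))) z i (Fin.castAdd n b) =
      (1 : Matrix (Fin (m + n)) (Fin (m + n)) ℂ) i (Fin.castAdd n b) := by
  unfold Hf
  rw [Matrix.of_apply]
  unfold ps
  rw [tsum_eq_single 0]
  · show Hk (Hq (m + n) (QL (zb m β))) 0 i (Fin.castAdd n b) * z ^ 0 = _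
    rw [Hk_left, if_pos rfl, pow_zero, mul_one]
  · intro k hk
    show Hk (Hq (m + n) (QL (zb m β))) k i (Fin.castAdd n b) * z ^ k = 0
    rw [Hk_left, if_neg hk, zero_mul]

lemma ul_Hf (β : Fin n → ℚ) (z : ℂ) : ul (Hf (Hk (Hq (m + n) (QL (zb m β)))) z) = 1 := by
  rw [← ul_one (R := ℂ) (m := m) (n := n)]
  ext a b
  exact Hf_left β z _ b

lemma ll_Hf (β : Fin n → ℚ) (z : ℂ) : ll (Hf (Hk (Hq (m + n) (QL (zb m β)))) z) = 0 := by
  rw [← ll_one (R := ℂ) (m := m) (n := n)]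
  ext a b
  exact Hf_left β z _ b

lemma lr_Hf (β : Fin n → ℚ) (z : ℂ) : lr (Hf (Hk (Hq (m + n) (QL (zb m β)))) z) = Hf (Hk (Hq n (QL β))) z := by
  ext a b
  show Hf (Hk (Hq (m + n) (QL (zb m β)))) z (Fin.natAdd m a) (Fin.natAdd m b) = _
  unfold Hf
  rw [Matrix.of_apply, Matrix.of_apply]
  congr 1
  funext k
  unfold Hk
  rw [Pool.Agent.Y119.HY.cm_apply, Pool.Agent.Y119.HY.cm_apply, Hq_lr]

lemma ll_Yf (β : Fin n → ℚ) (z : ℂ) : ll (Yf (cm (Am (m + n))) (Hk (Hq (m + n) (QL (zb m β)))) z) = 0 := by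
  unfold Yf
  rw [ll_mul, ll_Hf, ll_E]
  simp

lemma lr_Yf (β : Fin n → ℚ) (z : ℂ) : lr (Yf (cm (Am (m + n))) (Hk (Hq (m + n) (QL (zb m β)))) z) =
    Yf (cm (Am n)) (Hk (Hq n (QL β))) z := by
  unfold Yf
  rw [lr_mul, ll_Hf, lr_Hf, lr_E]
  simp

/-! ### the symplectic case -/

/-- the parameters are symmetric -/
def Sym (β : Fin n → ℚ) : Prop := ∀ j, Odd j → (QL β).coeff j = 0

lemma qd_of {β : Fin n → ℚ} (h : BD β) (hs : Sym β) : QD n (QL β) := by
  have hQ := qg_of h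
  refine ⟨h.two, ?_, hQ.monic, hQ.deg, hs, fun l => ?_⟩
  · by_contra hodd
    rw [Nat.not_even_iff_odd] at hodd
    have h1 := hs n hodd
    have h2 := hQ.monic.coeff_natDegree
    rw [hQ.deg, h1] at h2
    exact zero_ne_one h2
  · unfold QL
    rw [Polynomial.eval_prod]
    refine Finset.prod_ne_zero_iff.2 fun i _ => ?_
    rw [Polynomial.eval_sub, Polynomial.eval_X, Polynomial.eval_C]
    intro h0
    exact h.ni i l (by push_cast; linarith)

/-- the form -/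
noncomputable def Jc (β : Fin n → ℚ) : Matrix (Fin n) (Fin n) ℂ := cm (Jm n (QL β))

lemma Yf_J {β : Fin n → ℚ} (h : BD β) (hs : Sym β) {x : ℝ} (hx : 0 < x) (hx1 : x < 1) :
    (Yf (cm (Am n)) (Hk (Hq n (QL β))) x).transpose * Jc β * Yf (cm (Am n)) (Hk (Hq n (QL β))) x = Jc β := by
  have hQ := qd_of h hs
  refine Pool.Agent.Y119.HY.self_pair (N1 := cm (Bm n (QL β))) Ac_nil Pool.Agent.Y119.HY.Jc_rel ?_ (sol_Hq (qg_of h))
    (real_mem_Lens hx hx1)
  have h1 := congrArg cm (Pool.Agent.Y119.HZ.Bm_rel hQ)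
  rw [Pool.Agent.Y119.HY.cm_add, Pool.Agent.Y119.HY.cm_mul, Pool.Agent.Y119.HY.cm_mul, Pool.Agent.Y119.HY.cm_zero] at h1
  exact h1

/-- the polynomial of the form -/
noncomputable def pJ (m : ℕ) (J : Matrix (Fin n) (Fin n) ℂ) (i j : Fin n) : MvPolynomial (Pool.Agent.Y119.HY.Vr (m + n)) ℂ :=
  (∑ l, (∑ k, MvPolynomial.X (some (some (Fin.natAdd m k, Fin.natAdd m i))) * MvPolynomial.C (J k l)) *
    MvPolynomial.X (some (some (Fin.natAdd m l, Fin.natAdd m j)))) - MvPolynomial.C (J i j)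

lemma ev_pJ (J : Matrix (Fin n) (Fin n) ℂ) (i j : Fin n) (z L : ℂ) (X : Matrix (Fin (m + n)) (Fin (m + n)) ℂ) :
    Pool.Agent.Y119.HY.ev (pJ m J i j) z L X = ((lr X).transpose * J * lr X) i j - J i j := by
  unfold Pool.Agent.Y119.HY.ev pJ
  rw [map_sub, MvPolynomial.eval_C, map_sum]
  congr 1
  rw [Matrix.mul_apply]
  refine Finset.sum_congr rfl fun l _ => ?_
  rw [map_mul, map_sum, Matrix.mul_apply]
  congr 1
  · refine Finset.sum_congr rfl fun k _ => ?_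
    rw [map_mul, MvPolynomial.eval_C, MvPolynomial.eval_X]
    rfl
  · rw [MvPolynomial.eval_X]
    rfl

/-- the matrices on the quotient preserve the form -/
lemma pres_J (m : ℕ) {β : Fin n → ℚ} (h : BD β) (hs : Sym β) {C : Matrix (Fin n) (Fin n) ℂ}
    (hC : bt (0 : Matrix (Fin m) (Fin n) ℂ) C ∈ Gal (Yf (cm (Am (m + n))) (Hk (Hq (m + n) (QL (zb m β)))))) :
    C.transpose * Jc β * C = Jc β := by
  have hrel : ∀ i j, pJ m (Jc β) i j ∈ Rel (Yf (cm (Am (m + n))) (Hk (Hq (m + n) (QL (zb m β))))) := by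
    intro i j x hx hx1
    rw [ev_pJ, lr_Yf, Yf_J h hs hx hx1, sub_self]
  have h1 : ∀ i j, (C.transpose * Jc β * C) i j = Jc β i j := by
    intro i j
    have h2 := hC _ (hrel i j) (1 / 2) (by norm_num) (by norm_num)
    rw [ev_pJ, lr_mul, ll_Yf, Matrix.zero_mul, zero_add, lr_Yf, lr_bt, transpose_mul] at h2
    have h3 : (C.transpose * (Yf (cm (Am n)) (Hk (Hq n (QL β))) ((1 / 2 : ℝ) : ℂ)).transpose * Jc β *
        (Yf (cm (Am n)) (Hk (Hq n (QL β))) ((1 / 2 : ℝ) : ℂ) * C)) = C.transpose * Jc β * C := by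
      have h4 := Yf_J h hs (x := 1 / 2) (by norm_num) (by norm_num)
      calc _ = C.transpose * ((Yf (cm (Am n)) (Hk (Hq n (QL β))) ((1 / 2 : ℝ) : ℂ)).transpose * Jc β *
            Yf (cm (Am n)) (Hk (Hq n (QL β))) ((1 / 2 : ℝ) : ℂ)) * C := by simp only [Matrix.mul_assoc]
        _ = _ := by rw [h4]
    rw [h3] at h2
    exact sub_eq_zero.1 h2
  ext i j
  exact h1 i j

/-- a transvection which preserves an alternating form -/
lemma tv_of_pres {J : Matrix (Fin n) (Fin n) ℂ} (hJ : J.transpose = -J) (hdet : J.det ≠ 0) {v φ : Fin n → ℂ} (hv : v ≠ 0)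
    (hφ : φ ≠ 0) (h : (tr v φ 1).transpose * J * tr v φ 1 = J) : ∃ κ : ℂ, κ ≠ 0 ∧ φ = κ • (v ᵥ* J) := by
  set ω := v ᵥ* J with hω
  have hJv : J *ᵥ v = -ω := by rw [hω, ← mulVec_transpose, hJ, neg_mulVec, neg_neg]
  have hωv : ω ⬝ᵥ v = 0 := by
    have h1 := Pool.Agent.Y119.HY.om_self hJ v
    rw [Pool.Agent.Y119.HY.om_eq] at h1
    exact h1
  have hω0 : ω ≠ 0 := by
    intro h0
    apply hv
    have h1 : v ᵥ* J ᵥ* J⁻¹ = 0 := by rw [← hω, h0, zero_vecMul]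
    rwa [vecMul_vecMul, mul_nonsing_inv _ (Ne.isUnit hdet), vecMul_one] at h1
  have hT : (tr v φ 1).transpose = 1 + vecMulVec φ v := by
    unfold tr
    rw [transpose_add, transpose_one, one_smul, transpose_vecMulVec]
  have h1 : vecMulVec φ ω - vecMulVec ω φ = 0 := by
    have h2 : (1 + vecMulVec φ v) * J * (1 + vecMulVec v φ) = J + (vecMulVec φ ω - vecMulVec ω φ) := by
      rw [add_mul, one_mul, vecMulVec_mul, ← hω, mul_add, mul_one, add_mul, mul_vecMulVec, hJv,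
        vecMulVec_mul_vecMulVec, hωv, zero_smul, vecMulVec_zero, add_zero, neg_vecMulVec]
      abel
    rw [hT] at h
    have h3 : tr v φ 1 = 1 + vecMulVec v φ := by
      unfold tr
      rw [one_smul]
    rw [h3, h2] at h
    exact add_eq_left.1 h
  obtain ⟨i, hi⟩ : ∃ i, ω i ≠ 0 := by
    by_contra hcon
    push Not at hcon
    exact hω0 (funext hcon)
  have h2 : φ = (φ i / ω i) • ω := by
    funext j
    have h3 := congrFun (congrFun h1 i) j
    rw [Matrix.sub_apply, vecMulVec_apply, vecMulVec_apply, Matrix.zero_apply] at h3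
    rw [Pi.smul_apply, smul_eq_mul]
    field_simp
    linear_combination -h3
  refine ⟨φ i / ω i, ?_, h2⟩
  intro h0
  apply hφ
  rw [h2, h0, zero_smul]

/-- **the symplectic case** -/
theorem sp_mix (m : ℕ) {β : Fin n → ℚ} (h : BD β) (hs : Sym β) (B : Matrix (Fin m) (Fin n) ℂ)
    (C : Matrix (Fin n) (Fin n) ℂ) (hC : C.transpose * Jc β * C = Jc β) :
    bt B C ∈ Gal (Yf (cm (Am (m + n))) (Hk (Hq (m + n) (QL (zb m β))))) := by
  have hn := h.two
  have hQ := qd_of h hs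
  obtain ⟨v, φ, P, T, hT, hcl, hE, hgd, hpair, hP⟩ := low_gal m h
  have hA : cm (Am n) ^ n = 0 := Ac_nil
  have hκ0 : φ ⬝ᵥ (cm (Am n) ^ (n - 1) *ᵥ v) ≠ 0 := by
    rw [hpair (n - 1) (by omega), Nat.sub_self]
    exact P0_ne h hP
  have hv0 : v ≠ 0 := by
    intro h0
    apply hκ0
    rw [h0, mulVec_zero, dotProduct_zero]
  have hφ0 : φ ≠ 0 := by
    intro h0
    apply hκ0
    rw [h0, zero_dotProduct]
  have hJ : (Jc β).transpose = -Jc β := Pool.Agent.Y119.HY.Jc_skew hQ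
  have hdet : (Jc β).det ≠ 0 := Pool.Agent.Y119.HY.Jc_det hQ
  obtain ⟨κ, hκ, hφκ⟩ := tv_of_pres hJ hdet hv0 hφ0 (pres_J m h hs (hT _ (hgd.2 1) 0))
  have hvS : ∀ s, Pool.Agent.Y119.HY.tv (Jc β) v s ∈ T := by
    intro s
    have h1 := hgd.2 (s * κ⁻¹)
    rw [hφκ, tr_smul_right, inv_mul_cancel_right₀ hκ] at h1
    exact h1
  refine hT C ?_ B
  refine Pool.Agent.Y119.HY.sp_all hJ hA Pool.Agent.Y119.HY.Jc_rel ?_ T (fun c g hg => (hE c).2 g hg) hvS hcl hdet C hC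
  rw [Pool.Agent.Y119.HY.om_eq]
  intro h0
  apply hκ0
  rw [hφκ, smul_dotProduct, h0, smul_zero]

end Pool.Agent.E8helper43.MX
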