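import Pool.Agent.E8helper43.MX.Uni

/-!
# The part of the group on the quotient
-/

set_option autoImplicit false
set_option maxHeartbeats 4000000

open Matrix

namespace Pool.Agent.E8helper43.MX

open Pool.Agent.E8helper43.HS
open Pool.Agent.Y119.HY (cm E Am E_mul_neg E_zero Am_pow Ac_nil)

variable {m n : ℕ} {S : Submonoid (Matrix (Fin (m + n)) (Fin (m + n)) ℂ)}

/-- the vectors of the quotient -/
def qv (m : ℕ) {n : ℕ} (v : Fin (m + n) → ℂ) : Fin n → ℂ := fun b => v (Fin.natAdd m b)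

lemma tr_bt {v φ : Fin (m + n) → ℂ} (hφ : φ ∈ Wp (m + n) m) (s : ℂ) :
    tr v φ s = bt (s • vecMulVec (fun a => v (Fin.castAdd n a)) (qv m φ)) (tr (qv m v) (qv m φ) s) := by
  have h0 : ∀ a : Fin m, φ (Fin.castAdd n a) = 0 := fun a => hφ _ (by simp)
  apply blk_ext
  · rw [ul_bt]
    unfold tr
    ext a b
    show (1 + s • vecMulVec v φ : Matrix _ _ ℂ) (Fin.castAdd n a) (Fin.castAdd n b) = _
    rw [Matrix.add_apply, Matrix.smul_apply, vecMulVec_apply, h0, mul_zero, smul_zero, add_zero]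
    exact congrFun (congrFun ul_one a) b
  · rw [ur_bt]
    unfold tr
    ext a b
    show (1 + s • vecMulVec v φ : Matrix _ _ ℂ) (Fin.castAdd n a) (Fin.natAdd m b) = _
    rw [Matrix.add_apply, Matrix.one_apply, if_neg (cast_ne_nat a b), zero_add]
    rfl
  · rw [ll_bt]
    unfold tr
    ext a b
    show (1 + s • vecMulVec v φ : Matrix _ _ ℂ) (Fin.natAdd m a) (Fin.castAdd n b) = _
    rw [Matrix.add_apply, Matrix.one_apply, if_neg (Ne.symm (cast_ne_nat b a)), zero_add, Matrix.smul_apply,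
      vecMulVec_apply, h0, mul_zero, smul_zero, Matrix.zero_apply]
  · rw [lr_bt]
    unfold tr
    ext a b
    show (1 + s • vecMulVec v φ : Matrix _ _ ℂ) (Fin.natAdd m a) (Fin.natAdd m b) = _
    rw [Matrix.add_apply, Matrix.add_apply]
    congr 1
    exact congrFun (congrFun lr_one a) b

lemma dot_qv {φ : Fin (m + n) → ℂ} (hφ : φ ∈ Wp (m + n) m) (v : Fin (m + n) → ℂ) : qv m φ ⬝ᵥ qv m v = φ ⬝ᵥ v := by
  rw [dotProduct, dotProduct, Fin.sum_univ_add]
  have h1 : ∑ a : Fin m, φ (Fin.castAdd n a) * v (Fin.castAdd n a) = 0 :=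
    Finset.sum_eq_zero fun a _ => by rw [hφ _ (by simp), zero_mul]
  rw [h1, zero_add]
  rfl

/-- the unipotent radical -/
lemma bt_one_mem (hu : ∀ (j : ℕ) (hj : j < m), ∀ ξ ∈ Wp (m + n) m, Gd S (Pi.single ⟨j, by omega⟩ 1) ξ)
    (B : Matrix (Fin m) (Fin n) ℂ) : bt B 1 ∈ S := by
  classical
  have key : ∀ s : Finset (Fin m), bt (Matrix.of fun a b => if a ∈ s then B a b else 0) 1 ∈ S := by
    intro s
    induction s using Finset.induction_on with
    | empty =>
      have h1 : (Matrix.of fun (a : Fin m) (b : Fin n) => if a ∈ (∅ : Finset (Fin m)) then B a b else 0) = 0 := by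
        ext a b
        simp
      rw [h1, bt_one]
      exact one_mem _
    | insert j s hj ih =>
      set ξ : Fin (m + n) → ℂ := Fin.append (fun _ => 0) (B j) with hξ
      have hξW : ξ ∈ Wp (m + n) m := by
        intro i hi
        have e1 : i = Fin.castAdd n ⟨i, hi⟩ := Fin.ext rfl
        rw [e1, hξ, Fin.append_left]
      have h1 := (hu j j.2 ξ hξW).2 1
      rw [tr_bt hξW] at h1
      have h2 : qv m (Pi.single (⟨(j : ℕ), by omega⟩ : Fin (m + n)) (1 : ℂ)) = 0 := by
        funext b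
        unfold qv
        rw [Pi.single_apply, if_neg, Pi.zero_apply]
        intro h
        have := congrArg Fin.val h
        simp only [Fin.val_natAdd] at this
        have := j.2
        omega
      have h3 : qv m ξ = B j := by
        funext b
        unfold qv
        rw [hξ, Fin.append_right]
      rw [h2, h3, tr_zero_left] at h1
      have h4 := mul_mem ih h1
      rw [bt_mul, Matrix.mul_one, Matrix.mul_one] at h4
      have h5 : (1 : ℂ) • vecMulVec (fun a => (Pi.single (⟨(j : ℕ), by omega⟩ : Fin (m + n)) (1 : ℂ) : Fin (m + n) → ℂ)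
          (Fin.castAdd n a)) (B j) + (Matrix.of fun a b => if a ∈ s then B a b else 0) =
          Matrix.of fun a b => if a ∈ insert j s then B a b else 0 := by
        ext a b
        rw [Matrix.add_apply, Matrix.smul_apply, vecMulVec_apply, Matrix.of_apply, Matrix.of_apply, Pi.single_apply]
        by_cases haj : a = j
        · have e1 : Fin.castAdd n a = (⟨(j : ℕ), by omega⟩ : Fin (m + n)) := Fin.ext (by simp [haj])
          rw [if_pos e1, haj, if_neg hj, if_pos (Finset.mem_insert_self _ _)]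
          simp
        · have e1 : Fin.castAdd n a ≠ (⟨(j : ℕ), by omega⟩ : Fin (m + n)) := by
            intro h
            apply haj
            apply Fin.ext
            have := congrArg Fin.val h
            simpa using this
          rw [if_neg e1, zero_mul, smul_zero, zero_add]
          congr 1
          rw [Finset.mem_insert]
          exact propext ⟨fun h => Or.inr h, fun h => h.resolve_left haj⟩
      rw [h5] at h4
      exact h4
  have h1 := key Finset.univ
  have h2 : (Matrix.of fun a b => if a ∈ (Finset.univ : Finset (Fin m)) then B a b else 0) = B := by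
    ext a b
    simp
  rwa [h2] at h1

/-- the monoid on the quotient -/
def Tq (S : Submonoid (Matrix (Fin (m + n)) (Fin (m + n)) ℂ)) : Submonoid (Matrix (Fin n) (Fin n) ℂ) where
  carrier := {C | bt 0 C ∈ S}
  mul_mem' := by
    intro C C' hC hC'
    have hC1 : bt 0 C ∈ S := hC
    have hC2 : bt 0 C' ∈ S := hC'
    have h1 := mul_mem hC1 hC2
    rw [bt_mul, Matrix.zero_mul, add_zero] at h1
    exact h1
  one_mem' := by
    show bt 0 1 ∈ S
    rw [bt_one]
    exact one_mem _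

lemma mem_Tq {C : Matrix (Fin n) (Fin n) ℂ} : C ∈ Tq (m := m) S ↔ bt 0 C ∈ S := Iff.rfl

lemma drop (hu : ∀ B : Matrix (Fin m) (Fin n) ℂ, bt B 1 ∈ S) {B : Matrix (Fin m) (Fin n) ℂ} {C : Matrix (Fin n) (Fin n) ℂ}
    (h : bt B C ∈ S) : C ∈ Tq (m := m) S := by
  have h1 := mul_mem h (hu (-B))
  rw [bt_mul, Matrix.mul_one, Matrix.mul_one, neg_add_cancel] at h1
  exact h1

lemma bt_mem (hu : ∀ B : Matrix (Fin m) (Fin n) ℂ, bt B 1 ∈ S) (B : Matrix (Fin m) (Fin n) ℂ)
    {C : Matrix (Fin n) (Fin n) ℂ} (h : C ∈ Tq (m := m) S) : bt B C ∈ S := by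
  have h1 := mul_mem (mem_Tq.1 h) (hu B)
  rw [bt_mul, Matrix.mul_one, add_zero, Matrix.mul_one] at h1
  exact h1

lemma Tq_E (hu : ∀ B : Matrix (Fin m) (Fin n) ℂ, bt B 1 ∈ S)
    (hE : ∀ c : ℂ, Nm S (E (cm (Am (m + n))) c) (E (cm (Am (m + n))) (-c))) (c : ℂ) :
    Nm (Tq (m := m) S) (E (cm (Am n)) c) (E (cm (Am n)) (-c)) := by
  refine ⟨E_mul_neg Ac_nil c, fun C hC => ?_⟩
  have h1 := (hE c).2 _ (mem_Tq.1 hC)
  set M := E (cm (Am (m + n))) c * bt 0 C * E (cm (Am (m + n))) (-c) with hM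
  have e1 : ul M = 1 := by
    rw [hM, ul_mul, ul_mul, ul_E, ul_E, ll_E, ul_bt, ll_bt, Matrix.mul_zero, Matrix.mul_zero, add_zero, add_zero, mul_one]
    exact E_mul_neg Ac_nil c
  have e2 : ll M = 0 := by
    rw [hM, ll_mul, ll_mul, ll_E, ll_E, ll_bt]
    simp
  have e3 : lr M = E (cm (Am n)) c * C * E (cm (Am n)) (-c) := by
    rw [hM, lr_mul, lr_mul, ll_mul, ll_E, lr_E, lr_E, lr_bt, ll_bt]
    simp
  rw [eq_bt e1 e2, e3] at h1
  exact drop hu h1

lemma Tq_cl (hcl : ∀ M : Matrix (Fin (m + n)) (Fin (m + n)) (Polynomial ℂ), (∀ c : ℂ, c ≠ 0 → M.map (Polynomial.eval c) ∈ S) →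
      M.map (Polynomial.eval 0) ∈ S) (M : Matrix (Fin n) (Fin n) (Polynomial ℂ))
    (hM : ∀ c : ℂ, c ≠ 0 → M.map (Polynomial.eval c) ∈ Tq (m := m) S) : M.map (Polynomial.eval 0) ∈ Tq (m := m) S := by
  have h1 : ∀ c : ℂ, (bt (0 : Matrix (Fin m) (Fin n) (Polynomial ℂ)) M).map (Polynomial.eval c) = bt 0 (M.map (Polynomial.eval c)) := by
    intro c
    apply blk_ext
    · rw [ul_bt]
      show (ul (bt (0 : Matrix (Fin m) (Fin n) (Polynomial ℂ)) M)).map (Polynomial.eval c) = _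
      rw [ul_bt]
      ext a b
      rw [Matrix.map_apply, Matrix.one_apply, Matrix.one_apply]
      split_ifs <;> simp
    · rw [ur_bt]
      show (ur (bt (0 : Matrix (Fin m) (Fin n) (Polynomial ℂ)) M)).map (Polynomial.eval c) = _
      rw [ur_bt]
      ext a b
      simp
    · rw [ll_bt]
      show (ll (bt (0 : Matrix (Fin m) (Fin n) (Polynomial ℂ)) M)).map (Polynomial.eval c) = _
      rw [ll_bt]
      ext a b
      simp
    · rw [lr_bt]
      show (lr (bt (0 : Matrix (Fin m) (Fin n) (Polynomial ℂ)) M)).map (Polynomial.eval c) = _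
      rw [lr_bt]
  have h2 := hcl (bt 0 M) fun c hc => by
    rw [h1]
    exact hM c hc
  rw [h1] at h2
  exact h2

lemma Tq_gd (hu : ∀ B : Matrix (Fin m) (Fin n) ℂ, bt B 1 ∈ S) {v φ : Fin (m + n) → ℂ} (hφ : φ ∈ Wp (m + n) m)
    (h : Gd S v φ) : Gd (Tq (m := m) S) (qv m v) (qv m φ) := by
  refine ⟨by rw [dot_qv hφ]; exact h.1, fun s => ?_⟩
  have h1 := h.2 s
  rw [tr_bt hφ] at h1
  exact drop hu h1

lemma qv_A (l : ℕ) (v : Fin (m + n) → ℂ) : cm (Am n) ^ l *ᵥ qv m v = qv m (cm (Am (m + n)) ^ l *ᵥ v) := by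
  funext i
  unfold qv
  rw [Pool.Agent.Y119.HY.mv_apply, Pool.Agent.Y119.HY.mv_apply, Fin.sum_univ_add]
  have h1 : ∑ a : Fin m, (cm (Am (m + n)) ^ l) (Fin.natAdd m i) (Fin.castAdd n a) * v (Fin.castAdd n a) = 0 := by
    refine Finset.sum_eq_zero fun a _ => ?_
    rw [← Pool.Agent.Y119.HY.cm_pow, Pool.Agent.Y119.HY.cm_apply, Am_pow, if_neg, Rat.cast_zero, zero_mul]
    simp only [Fin.val_castAdd, Fin.val_natAdd]
    omega
  rw [h1, zero_add]
  refine Finset.sum_congr rfl fun b _ => ?_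
  rw [← Pool.Agent.Y119.HY.cm_pow, ← Pool.Agent.Y119.HY.cm_pow, Pool.Agent.Y119.HY.cm_apply, Pool.Agent.Y119.HY.cm_apply,
    Am_pow, Am_pow]
  simp only [Fin.val_natAdd]
  by_cases h : (b : ℕ) = i + l
  · rw [if_pos h, if_pos (by omega)]
  · rw [if_neg h, if_neg (by omega)]

end Pool.Agent.E8helper43.MX
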