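import Pool.Agent.E8helper43.MX.Low

/-!
# The transvection at one for the mixed systems
-/

set_option autoImplicit false
set_option maxHeartbeats 4000000

open Filter Topology Matrix

namespace Pool.Agent.E8helper43.MX

open Pool.Agent.E8helper43.HS
open Pool.Agent.Y119.HY (cm Sol Hf Ep E Ep_eval E_neg E_zero E_mul_neg E_add Yf Rel Gal Lens mem_Lens slit_Lens real_mem_Lens
  symm_Lens Hf_an Hf_zero exists_sol Am Bm kx aq hq Hq uc ps pl pl_eval pl_coeff mv_apply Ac_nil)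

variable {d : ℕ}

/-- the transvection at one for a general system -/
theorem data_gen {β : Fin d → ℚ} (hQ : QG d (QL β)) : ∃ (v φ : Fin d → ℂ) (Cf Df : ℂ → ℂ),
    Gd (Gal (Yf (cm (Am d)) (Hk (Hq d (QL β))))) v φ ∧
    (φ = fun j : Fin d => PowerSeries.coeff (j : ℕ) (tay Cf)) ∧
    (v = fun j : Fin d => PowerSeries.coeff (d - 1 - (j : ℕ)) (tay Df)) ∧
    (∀ j, Tendsto (fun k => cc d (QL β) k j) atTop (𝓝 (PowerSeries.coeff j (tay Cf)))) ∧
    hs ^ d * (tay Cf * tay Df) = tay (Sf β) := by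
  have hn := hQ.two
  set u := uc d with hu
  set q := qc d (QL β) with hq
  have hqu : q ⬝ᵥ u = 0 := qc_uc hQ
  have hA : cm (Am d) ^ d = 0 := Ac_nil
  have hB : (vecMulVec u q) ^ d = 0 := vv_pow hqu hn
  have hH : Sol (cm (Am d)) (vecMulVec u q) (Hk (Hq d (QL β))) := by
    have := sol_Hq hQ
    rwa [cm_Bm'] at this
  have hL : Sol (-(cm (Am d)).transpose) (-(vecMulVec u q).transpose) (Hk (Lq d (QL β))) := by
    have := sol_Lq hQ
    rwa [cm_Bm'] at this
  obtain ⟨K, hK⟩ := exists_sol (neg_nil hB) (-cm (Am d))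
  obtain ⟨K', hK'⟩ := exists_sol (tr_nil hB) (cm (Am d)).transpose
  obtain ⟨M, Mi, hMMi, hMiM, hY, hYL⟩ := connect hA hB hH hL hK hK'
  obtain ⟨Cf, Df, hCa, hDa, hC, hD, hid⟩ := lims hQ
  have hφ : q ᵥ* M = fun j : Fin d => PowerSeries.coeff (j : ℕ) (tay Cf) := by
    refine phi_lim hn hqu hA hH hK hY _ fun j => ?_
    simp only [hq, sum_qH hQ]
    exact hC j
  have hv : Mi *ᵥ u = fun j : Fin d => PowerSeries.coeff (d - 1 - (j : ℕ)) (tay Df) := by
    refine v_lim hn hqu hA hL hK' hYL _ fun j => ?_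
    rw [← tendsto_add_atTop_iff_nat 1]
    simp only [hu, sum_uL hQ]
    exact hD _
  exact ⟨Mi *ᵥ u, q ᵥ* M, Cf, Df, tv_mem hn hqu hK hMMi hY, hφ, hv, hC, lim_id hCa hDa hid⟩

variable {m n : ℕ}

/-- the exponents of the mixed system -/
def zb (m : ℕ) (β : Fin n → ℚ) : Fin (m + n) → ℚ := Fin.append (fun _ => 0) β

lemma QL_zb (β : Fin n → ℚ) : QL (zb m β) = Polynomial.X ^ m * QL β := by
  unfold QL zb
  rw [Fin.prod_univ_add]
  congr 1
  · simp
  · simp

lemma Sf_zb (β : Fin n → ℚ) (z : ℂ) : Sf (zb m β) z = Complex.sin (Real.pi * z) ^ m * Sf β z := by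
  unfold Sf zb
  rw [Fin.prod_univ_add]
  congr 1
  · simp
  · simp

lemma tay_Sf_zb (β : Fin n → ℚ) : tay (Sf (zb m β)) = (PowerSeries.X * hs) ^ m * tay (Sf β) := by
  have h1 : Sf (zb m β) = fun z => Complex.sin (Real.pi * z) ^ m * Sf β z := funext fun z => Sf_zb β z
  rw [h1, tay_mul (f := fun z => Complex.sin (Real.pi * z) ^ m) (an_s.pow m) (an_Sf β), tay_pow an_s, hs_eq]

lemma sum_zb {β : Fin n → ℚ} (h : ∑ i, β i = 0) : ∑ i, zb m β i = 0 := by
  unfold zb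
  rw [Fin.sum_univ_add]
  simpa using h

lemma ok_zb {β : Fin n → ℚ} (h : BD β) : Ok (zb m β) := by
  intro i
  induction i using Fin.addCases with
  | left a =>
    left
    unfold zb
    rw [Fin.append_left]
  | right b =>
    right
    intro l
    unfold zb
    rw [Fin.append_right]
    exact h.nz b l

lemma qg_zb (m : ℕ) {β : Fin n → ℚ} (h : BD β) : QG (m + n) (QL (zb m β)) :=
  qg_sum (by have := h.two; omega) (sum_zb h.sum)

lemma gs_zb (m : ℕ) {β : Fin n → ℚ} (h : BD β) :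
    GS (An (m + n)) (Bm (m + n) (QL (zb m β))) (Hq (m + n) (QL (zb m β))) :=
  gs_of' (by have := h.two; omega) (sum_zb h.sum) (ok_zb h)

/-- the coefficients of the functional vanish -/
lemma cc_zb (β : Fin n → ℚ) (k : ℕ) {j : ℕ} (hj : j < m) : cc (m + n) (QL (zb m β)) (k + 1) j = 0 := by
  have h1 : ka 0 = PowerSeries.X := by
    unfold ka
    rw [map_zero, zero_add]
  have h3 : Polynomial.aeval (ka 0) (QL (zb m β)) = PowerSeries.X ^ m * Polynomial.aeval (ka 0) (QL β) := by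
    rw [QL_zb, _root_.map_mul, map_pow, Polynomial.aeval_X]
    congr 2
  have h2 : ∀ R : PowerSeries ℚ, PowerSeries.coeff j (PowerSeries.X ^ m * R) = 0 := by
    intro R
    exact (PowerSeries.X_pow_dvd_iff.1 (Dvd.intro R rfl)) j hj
  unfold cc
  rw [cc_eq, h3, mul_assoc, h2, Rat.cast_zero]

/-- **the transvection at one for the mixed system** -/
theorem data_mix (m : ℕ) {β : Fin n → ℚ} (h : BD β) : ∃ (v φ : Fin (m + n) → ℂ) (P : PowerSeries ℂ),
    Gd (Gal (Yf (cm (Am (m + n))) (Hk (Hq (m + n) (QL (zb m β)))))) v φ ∧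
    φ ∈ Wp (m + n) m ∧ φ ⟨m, by have := h.two; omega⟩ ≠ 0 ∧ v ⟨m + n - 1, by have := h.two; omega⟩ ≠ 0 ∧
    (∀ l < n, φ ⬝ᵥ (cm (Am (m + n)) ^ l *ᵥ v) = PowerSeries.coeff (n - 1 - l) P) ∧ hs ^ n * P = tay (Sf β) := by
  have hn := h.two
  obtain ⟨v, φ, Cf, Df, hgd, hφ, hv, hC, hid⟩ := data_gen (qg_zb m h)
  -- the zero of `Cf`
  have hC0 : ∀ j < m, PowerSeries.coeff j (tay Cf) = 0 := by
    intro j hj
    refine tendsto_nhds_unique (hC j) ?_
    rw [← tendsto_add_atTop_iff_nat 1]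
    simp only [cc_zb β _ hj]
    exact tendsto_const_nhds
  obtain ⟨C1, hC1⟩ := PowerSeries.X_pow_dvd_iff.2 hC0
  have hX : (PowerSeries.X : PowerSeries ℂ) ≠ 0 := PowerSeries.X_ne_zero
  have hhs : hs ≠ 0 := by
    intro h0
    have := hs_zero
    rw [h0, map_zero] at this
    exact Real.pi_ne_zero (by exact_mod_cast this.symm)
  have hP : hs ^ n * (C1 * tay Df) = tay (Sf β) := by
    rw [hC1, tay_Sf_zb, mul_pow, pow_add] at hid
    refine mul_left_cancel₀ (mul_ne_zero (pow_ne_zero m hX) (pow_ne_zero m hhs)) ?_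
    linear_combination hid
  have hP0 := P0_ne h hP
  rw [PowerSeries.coeff_zero_eq_constantCoeff_apply, map_mul] at hP0
  refine ⟨v, φ, C1 * tay Df, hgd, ?_, ?_, ?_, fun l hl => ?_, hP⟩
  · intro i hi
    rw [hφ]
    exact hC0 _ hi
  · rw [hφ, hC1]
    simp only
    have h1 : PowerSeries.coeff (0 + m) (PowerSeries.X ^ m * C1) = PowerSeries.coeff 0 C1 := by
      rw [mul_comm, PowerSeries.coeff_mul_X_pow]
    rw [zero_add] at h1
    rw [h1, PowerSeries.coeff_zero_eq_constantCoeff_apply]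
    exact left_ne_zero_of_mul hP0
  · rw [hv]
    simp only
    rw [Nat.sub_self, PowerSeries.coeff_zero_eq_constantCoeff_apply]
    exact right_ne_zero_of_mul hP0
  · rw [hφ, hv, pair_coeff (by omega), hC1]
    have e1 : m + n - 1 - l = (n - 1 - l) + m := by omega
    rw [e1, mul_assoc, mul_comm (PowerSeries.X ^ m), PowerSeries.coeff_mul_X_pow]

/-- the group: everything up to the quotient -/
theorem low_gal (m : ℕ) {β : Fin n → ℚ} (h : BD β) : ∃ (v φ : Fin n → ℂ) (P : PowerSeries ℂ)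
    (T : Submonoid (Matrix (Fin n) (Fin n) ℂ)),
    (∀ C ∈ T, ∀ B : Matrix (Fin m) (Fin n) ℂ, bt B C ∈ Gal (Yf (cm (Am (m + n))) (Hk (Hq (m + n) (QL (zb m β)))))) ∧
    (∀ M : Matrix (Fin n) (Fin n) (Polynomial ℂ), (∀ c : ℂ, c ≠ 0 → M.map (Polynomial.eval c) ∈ T) →
      M.map (Polynomial.eval 0) ∈ T) ∧
    (∀ c : ℂ, Nm T (E (cm (Am n)) c) (E (cm (Am n)) (-c))) ∧ Gd T v φ ∧
    (∀ l < n, φ ⬝ᵥ (cm (Am n) ^ l *ᵥ v) = PowerSeries.coeff (n - 1 - l) P) ∧ hs ^ n * P = tay (Sf β) := by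
  have hn := h.two
  obtain ⟨v, φ, P, hgd, hφ, hφm, hvd, hpair, hP⟩ := data_mix m h
  set S := Gal (Yf (cm (Am (m + n))) (Hk (Hq (m + n) (QL (zb m β))))) with hS
  have hE : ∀ c : ℂ, Nm S (E (cm (Am (m + n))) c) (E (cm (Am (m + n))) (-c)) := fun c =>
    ⟨E_mul_neg Ac_nil c, fun g hg => Pool.Agent.Y119.HY.conj_E Ac_nil (sol_Hq (qg_zb m h)) c g hg⟩
  have hcl := Pool.Agent.Y119.HY.Gal_closed (Yf (cm (Am (m + n))) (Hk (Hq (m + n) (QL (zb m β)))))
  have hu : ∀ B : Matrix (Fin m) (Fin n) ℂ, bt B 1 ∈ S :=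
    bt_one_mem fun j hj => uni (by omega) (by omega) hE hcl hgd hφ hφm hvd j hj
  refine ⟨qv m v, qv m φ, P, Tq S, fun C hC B => bt_mem hu B hC, Tq_cl hcl, Tq_E hu hE, Tq_gd hu hφ hgd, fun l hl => ?_, hP⟩
  rw [qv_A, dot_qv hφ]
  exact hpair l hl

/-- **the linear case** -/
theorem sl_mix (m : ℕ) {β : Fin n → ℚ} (h : BD β) (hns : ¬ Eqv β fun j => -β j) (B : Matrix (Fin m) (Fin n) ℂ)
    (C : Matrix (Fin n) (Fin n) ℂ) (hC : C.det = 1) :
    bt B C ∈ Gal (Yf (cm (Am (m + n))) (Hk (Hq (m + n) (QL (zb m β))))) := by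
  have hn := h.two
  obtain ⟨v, φ, P, T, hT, hcl, hE, hgd, hpair, hP⟩ := low_gal m h
  have hA : cm (Am n) ^ n = 0 := Ac_nil
  refine hT C ?_ B
  refine sl_all hn hA hgd.1 ?_ hE (fun s => hgd.nm s) (gd_top hn hA hE hcl hgd) ?_ C hC
  · rw [hpair (n - 1) (by omega), Nat.sub_self]
    exact P0_ne h hP
  · by_contra hcon
    push Not at hcon
    apply hns
    obtain ⟨F, hF1, hF2⟩ := fpoly (cm (Am n)) v φ
    have h1 : F.comp (Polynomial.C (-1) * Polynomial.X) = -F := Polynomial.funext fun c => by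
      rw [Polynomial.eval_comp, Polynomial.eval_mul, Polynomial.eval_C, Polynomial.eval_X, neg_one_mul, hF1,
        Polynomial.eval_neg, hF1]
      exact hcon c
    refine opp_of_coeff h.sum h.sum hP hP fun l hl => ?_
    have h2 := congrArg (fun p => Polynomial.coeff p l) h1
    simp only [Polynomial.comp_C_mul_X_coeff, Polynomial.coeff_neg] at h2
    rw [hF2 l hl, hpair l hl] at h2
    have h3 : (l.factorial : ℂ) ≠ 0 := by exact_mod_cast l.factorial_ne_zero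
    field_simp at h2
    linear_combination h2

end Pool.Agent.E8helper43.MX
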