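import Pool.Agent.E8helper43.MX.Hfb

/-!
# Few exceptional tuples, for groups which are normalised by the exponentials
-/

set_option autoImplicit false
set_option maxHeartbeats 4000000

open PowerSeries Pool.Agent.Y113 Pool.Agent.Y120.GF Pool.Agent.Y120.GH

namespace Pool.Agent.E8helper43.MX

open Pool.Agent.E8helper43.HS
open Pool.Agent.Y119.HY (cm Sol Hf Ep E Ep_eval E_neg Yf Vr Rel Gal E_mul_neg E_zero E_add)
open Pool.Agent.Y119.HZ (ix evq PR ev_PR spec_eq MV MV.add MV.sum MV.mul_rat MV.ext fo mem_Ext_one Vn Vn_fin MV_mono Ix Vx Jx pw)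

variable {k : ℕ} {n : Fin k → ℕ} {N : ∀ i, Matrix (Fin (n i)) (Fin (n i)) ℤ}
  {B : ∀ i, Matrix (Fin (n i)) (Fin (n i)) ℚ} {H : ∀ i, ℕ → Matrix (Fin (n i)) (Fin (n i)) ℚ}

theorem relI_vanish' (hG : ∀ i, GS (N i) (B i) (H i)) {δ : ℕ} {t : Fin k → ℕ} (ht : ∀ i, 2 ≤ t i)
    {κ : ∀ i, Matrix (Fin (n i)) (Fin (n i)) ℂ}
    (hκ : ∀ i s, E (cm (nq (N i))) s * κ i * E (cm (nq (N i))) (-s) ∈ Gal (Yf (cm (nq (N i))) (Hk (H i)))) (l : Fin k → ℂ)
    {P : MvPolynomial (Vx n) ℂ} (hP : P ∈ relI δ (fun i => hf (H i)) t) :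
    MvPolynomial.aeval (pt (fun i j => (Hf (Hk (H i)) (((1 / (t i : ℝ) : ℝ)) : ℂ) * κ i) (ix (n i) j).1 (ix (n i) j).2) l) P = 0 := by
  set θ := pt (fun i j => (Hf (Hk (H i)) (((1 / (t i : ℝ) : ℝ)) : ℂ) * κ i) (ix (n i) j).1 (ix (n i) j).2) l with hθ
  have h1 : relI δ (fun i => hf (H i)) t ≤ RingHom.ker (MvPolynomial.aeval (R := ℂ) θ).toRingHom := by
    unfold relI
    rw [Ideal.span_le]
    rintro _ ⟨i, R, -, hR, rfl⟩
    show (MvPolynomial.aeval θ) (MvPolynomial.rename (fun j => (⟨i, some j⟩ : Vx n)) (MvPolynomial.map (spec (t i)) R)) = 0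
    rw [MvPolynomial.aeval_rename, MvPolynomial.aeval_def, MvPolynomial.eval₂_map]
    have h2 : (algebraMap ℂ ℂ).comp (spec (t i)) = evq (((1 / (t i : ℝ) : ℝ)) : ℂ) := by
      rw [← spec_eq]
      rfl
    rw [h2]
    have h3 : (2 : ℝ) ≤ t i := by exact_mod_cast ht i
    have h4 := rel_inv (hG i) (R := R) hR (x := 1 / (t i : ℝ)) (κ := κ i) (by positivity)
      (by rw [div_lt_one (by linarith)]; linarith) (by
        have := hκ i (-(Complex.log ((1 / (t i : ℝ) : ℝ) : ℂ)))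
        rwa [neg_neg] at this)
    have h5 : (θ ∘ fun j => (⟨i, some j⟩ : Vx n)) = fun j : Fin (n i * n i) =>
        (Hf (Hk (H i)) (((1 / (t i : ℝ) : ℝ)) : ℂ) * κ i) (ix (n i) j).1 (ix (n i) j).2 := by
      funext j
      rfl
    rw [h5]
    exact h4
  exact h1 hP

/-- **Few exceptional tuples.** -/
theorem sys_tuples' (k δ D : ℕ) (n : Fin k → ℕ) (N : ∀ i, Matrix (Fin (n i)) (Fin (n i)) ℤ)
    (B : ∀ i, Matrix (Fin (n i)) (Fin (n i)) ℚ) (H : ∀ i, ℕ → Matrix (Fin (n i)) (Fin (n i)) ℚ)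
    (hG : ∀ i, GS (N i) (B i) (H i)) (G : ∀ i, Set (Matrix (Fin (n i)) (Fin (n i)) ℂ))
    (hGG : ∀ i, ∀ g ∈ G i, ∀ s, E (cm (nq (N i))) s * g * E (cm (nq (N i))) (-s) ∈ Gal (Yf (cm (nq (N i))) (Hk (H i)))) :
    ∃ c C : ℝ, 0 < c ∧ 0 ≤ C ∧ ∀ (V : Submodule ℚ ℂ) [Module.Finite ℚ V], Module.finrank ℚ V ≤ D →
      ∀ Ω : (∀ i, Matrix (Fin (n i)) (Fin (n i)) ℂ), ∀ (x : Fin k → ℕ) (N₀ : ℕ), (∀ i, 1 ≤ x i) → 1 ≤ N₀ →
      ∀ S : Finset (Fin k → ℕ), (∀ t ∈ S, (∀ i, x i < t i ∧ t i ≤ x i + N₀) ∧ ∃ P : MvPolynomial (Jx n) ℂ,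
        P.totalDegree ≤ δ ∧ (∀ s, P.coeff s ∈ V) ∧
        MvPolynomial.aeval (pw (fun i => ((Real.log (t i) : ℝ) : ℂ)) fun i => Ys (N i) (H i) (t i) * Ω i) P = 0 ∧
        ∃ (l : Fin k → ℂ) (g : ∀ i, Matrix (Fin (n i)) (Fin (n i)) ℂ), (∀ i, g i ∈ G i) ∧
          MvPolynomial.aeval (pw l fun i => Ys (N i) (H i) (t i) * g i *
            E (cm (nq (N i))) (((Real.log (t i) : ℝ) : ℂ) - l i) * Ω i) P ≠ 0) →
      (S.card : ℝ) ≤ C * (N₀ : ℝ) ^ (k - 1) * ∑ i, (1 + N₀ / ((x i : ℝ) + N₀) ^ c) := by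
  classical
  obtain ⟨c, C, hc, hC, hmain⟩ := tuples k (δ * dg n) ((Fintype.card (Option (Ix n))) ^ δ * D) (fun i => n i * n i)
    (fun i => hf (H i)) (fun i => by
      obtain ⟨C₁, -, hs, -⟩ := Pool.Agent.Y119.HY.SDc.unif
        (y := fun p : Fin (n i) × Fin (n i) => mp (H i) p.1 p.2) fun p => (hG i).sdc p.1 p.2
      exact ⟨C₁, fun j m => hs (ix (n i) j) m⟩) (fun i => hfam_hf (hG i) _)
  refine ⟨c, C, hc, hC, ?_⟩
  intro V _ hV Ω x N₀ hx hN S hS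
  obtain ⟨hfin, hrank⟩ := Vn_fin Ω V δ
  refine hmain (Vn Ω V δ) (hrank.trans (Nat.mul_le_mul_left _ hV)) x N₀ hN S fun t htS => ?_
  obtain ⟨hbox, P, hPd, hPV, hP0, l, g, hg, hPg⟩ := hS t htS
  refine ⟨hbox, MvPolynomial.aeval (sub' N Ω) P, (aeval_MV' Ω hPd hPV).2, (aeval_MV' Ω hPd hPV).1, ?_, ?_⟩
  · -- the value
    have h1 : valpt (fun i => hf (H i)) t =
        pt (fun i j => Hf (Hk (H i)) (((1 / (t i : ℝ) : ℝ)) : ℂ) (ix (n i) j).1 (ix (n i) j).2)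
          (fun i => ((Real.log (t i) : ℝ) : ℂ)) := by
      unfold valpt
      congr 1
      funext i j
      exact ev_mp _ _ _
    have h2 : MvPolynomial.aeval (valpt (fun i => hf (H i)) t) (MvPolynomial.aeval (sub' N Ω) P) =
        MvPolynomial.aeval (fun v => MvPolynomial.aeval (valpt (fun i => hf (H i)) t) (sub' N Ω v)) P :=
      MvPolynomial.aeval_bind₁ _ _ _
    rw [h2, h1]
    have h3 := fun v => aeval_sub' (N := N) Ω (fun i => Hf (Hk (H i)) (((1 / (t i : ℝ) : ℝ)) : ℂ)) (fun i => ((Real.log (t i) : ℝ) : ℂ)) v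
    simp only [h3]
    exact hP0
  · intro hmem
    apply hPg
    have ht2 : ∀ i, 2 ≤ t i := fun i => by
      have := (hbox i).1
      have := hx i
      omega
    set L : Fin k → ℂ := fun i => ((Real.log (t i) : ℝ) : ℂ) with hL
    have hN : ∀ i, (cm (nq (N i))) ^ n i = 0 := fun i => cnil (hG i)
    let κ : ∀ i, Matrix (Fin (n i)) (Fin (n i)) ℂ := fun i => E (cm (nq (N i))) (-L i) * g i * E (cm (nq (N i))) (L i)
    have hκ : ∀ i s, E (cm (nq (N i))) s * κ i * E (cm (nq (N i))) (-s) ∈ Gal (Yf (cm (nq (N i))) (Hk (H i))) := by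
      intro i s
      have h1 := hGG i (g i) (hg i) (s - L i)
      have h2 : E (cm (nq (N i))) s * κ i * E (cm (nq (N i))) (-s) =
          E (cm (nq (N i))) (s - L i) * g i * E (cm (nq (N i))) (-(s - L i)) := by
        have e1 : E (cm (nq (N i))) (s - L i) = E (cm (nq (N i))) s * E (cm (nq (N i))) (-L i) := by
          rw [sub_eq_add_neg, E_add (hN i)]
        have e2 : E (cm (nq (N i))) (-(s - L i)) = E (cm (nq (N i))) (L i) * E (cm (nq (N i))) (-s) := by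
          rw [← E_add (hN i)]
          congr 1
          ring
        rw [e1, e2]
        show E (cm (nq (N i))) s * (E (cm (nq (N i))) (-L i) * g i * E (cm (nq (N i))) (L i)) * E (cm (nq (N i))) (-s) = _
        simp only [Matrix.mul_assoc]
      rw [h2]
      exact h1
    have h1 := relI_vanish' hG ht2 hκ l hmem
    have h2 : MvPolynomial.aeval (pt (fun i j => (Hf (Hk (H i)) (((1 / (t i : ℝ) : ℝ)) : ℂ) * κ i)
        (ix (n i) j).1 (ix (n i) j).2) l) (MvPolynomial.aeval (sub' N Ω) P) =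
        MvPolynomial.aeval (fun v => MvPolynomial.aeval (pt (fun i j => (Hf (Hk (H i)) (((1 / (t i : ℝ) : ℝ)) : ℂ) * κ i)
          (ix (n i) j).1 (ix (n i) j).2) l) (sub' N Ω v)) P := MvPolynomial.aeval_bind₁ _ _ _
    rw [h2] at h1
    have h3 := fun v => aeval_sub' (N := N) Ω (fun i => Hf (Hk (H i)) (((1 / (t i : ℝ) : ℝ)) : ℂ) * κ i) l v
    simp only [h3] at h1
    have h4 : (fun i => Hf (Hk (H i)) (((1 / (t i : ℝ) : ℝ)) : ℂ) * κ i * E (cm (nq (N i))) (-l i) * Ω i) =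
        fun i => Ys (N i) (H i) (t i) * g i * E (cm (nq (N i))) (L i - l i) * Ω i := by
      funext i
      have e1 : E (cm (nq (N i))) (L i - l i) = E (cm (nq (N i))) (L i) * E (cm (nq (N i))) (-l i) := by
        rw [sub_eq_add_neg, E_add (hN i)]
      rw [e1]
      show Hf (Hk (H i)) (((1 / (t i : ℝ) : ℝ)) : ℂ) * (E (cm (nq (N i))) (-L i) * g i * E (cm (nq (N i))) (L i)) *
        E (cm (nq (N i))) (-l i) * Ω i = Hf (Hk (H i)) (((1 / (t i : ℝ) : ℝ)) : ℂ) * E (cm (nq (N i))) (-L i) * g i *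
          (E (cm (nq (N i))) (L i) * E (cm (nq (N i))) (-l i)) * Ω i
      simp only [Matrix.mul_assoc]
    rw [h4] at h1
    exact h1

end Pool.Agent.E8helper43.MX
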