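import Pool.Agent.E8helper43.MX.Blk

/-!
# The unipotent radical
-/

set_option autoImplicit false
set_option maxHeartbeats 4000000

open Matrix

namespace Pool.Agent.E8helper43.MX

open Pool.Agent.E8helper43.HS
open Pool.Agent.Y119.HY (cm E Am E_mul_neg E_zero Am_pow Ac_nil)

variable {d : ℕ}

/-- extension by zero -/
def xt (v : Fin d → ℂ) (k : ℕ) : ℂ := if h : k < d then v ⟨k, h⟩ else 0

lemma xt_lt (v : Fin d → ℂ) {k : ℕ} (h : k < d) : xt v k = v ⟨k, h⟩ := dif_pos h

lemma xt_val (v : Fin d → ℂ) (i : Fin d) : xt v i = v i := dif_pos i.2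

lemma xt_ge (v : Fin d → ℂ) {k : ℕ} (h : d ≤ k) : xt v k = 0 := dif_neg (by omega)

lemma sum_shift {d i : ℕ} (hi : i ≤ d) (f g : ℕ → ℂ) (h1 : ∀ s < i, f s = 0) (h2 : ∀ l, i + l < d → f (i + l) = g l)
    (h3 : ∀ l, d ≤ i + l → g l = 0) : ∑ s ∈ Finset.range d, f s = ∑ l ∈ Finset.range d, g l := by
  obtain ⟨r, rfl⟩ := Nat.exists_eq_add_of_le hi
  rw [Finset.sum_range_add, Finset.sum_eq_zero fun s hs => h1 s (Finset.mem_range.1 hs), zero_add, add_comm i r,
    Finset.sum_range_add]
  have h4 : ∑ x ∈ Finset.range i, g (r + x) = 0 := Finset.sum_eq_zero fun x _ => h3 _ (by omega)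
  rw [h4, add_zero]
  exact Finset.sum_congr rfl fun l hl => h2 l (by rw [Finset.mem_range] at hl; omega)

lemma sum_refl {d k : ℕ} (hk : k < d) (f g : ℕ → ℂ) (h1 : ∀ s, k < s → f s = 0) (h2 : ∀ l, l ≤ k → f (k - l) = g l) :
    ∑ s ∈ Finset.range d, f s = ∑ l ∈ Finset.range (k + 1), g l := by
  have hsub : Finset.range (k + 1) ⊆ Finset.range d := by
    intro l hl
    rw [Finset.mem_range] at hl ⊢
    omega
  rw [← Finset.sum_subset hsub fun x _ hx => h1 x (by rw [Finset.mem_range] at hx; omega), ← Finset.sum_range_reflect]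
  refine Finset.sum_congr rfl fun l hl => ?_
  rw [Finset.mem_range] at hl
  rw [show k + 1 - 1 - l = k - l by omega]
  exact h2 l (by omega)

lemma E_mulVec' (c : ℂ) (v : Fin d → ℂ) (i : Fin d) :
    (E (cm (Am d)) c *ᵥ v) i = ∑ l ∈ Finset.range d, c ^ l / (l.factorial : ℂ) * xt v (i + l) := by
  have h1 : (E (cm (Am d)) c *ᵥ v) i = ∑ j : Fin d, (if (i : ℕ) ≤ j then c ^ ((j : ℕ) - i) / (((j : ℕ) - i).factorial : ℂ)
      else 0) * xt v j := by
    rw [Pool.Agent.Y119.HY.mv_apply]
    exact Finset.sum_congr rfl fun j _ => by rw [E_apply, xt_val]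
  rw [h1, ← Finset.sum_range (fun j => (if (i : ℕ) ≤ j then c ^ (j - (i : ℕ)) / ((j - (i : ℕ)).factorial : ℂ) else 0) * xt v j)]
  refine sum_shift i.2.le _ _ (fun s hs => by rw [if_neg (by omega), zero_mul]) (fun l _ => ?_) fun l hl => ?_
  · rw [if_pos (by omega), Nat.add_sub_cancel_left]
  · rw [xt_ge v hl, mul_zero]

lemma vecMul_E' (c : ℂ) (φ : Fin d → ℂ) (k : Fin d) :
    (φ ᵥ* E (cm (Am d)) c) k = ∑ l ∈ Finset.range ((k : ℕ) + 1), c ^ l / (l.factorial : ℂ) * xt φ (k - l) := by
  have h1 : (φ ᵥ* E (cm (Am d)) c) k = ∑ i : Fin d, xt φ i * (if (i : ℕ) ≤ k then c ^ ((k : ℕ) - i) /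
      (((k : ℕ) - i).factorial : ℂ) else 0) := by
    simp only [Matrix.vecMul, dotProduct]
    exact Finset.sum_congr rfl fun j _ => by rw [E_apply, xt_val]
  rw [h1, ← Finset.sum_range (fun i => xt φ i * (if i ≤ (k : ℕ) then c ^ ((k : ℕ) - i) / (((k : ℕ) - i).factorial : ℂ) else 0))]
  refine sum_refl k.2 _ _ (fun s hs => by rw [if_neg (by omega), mul_zero]) fun l hl => ?_
  rw [if_pos (by omega), show (k : ℕ) - (k - l) = l by omega, mul_comm]

variable {S : Submonoid (Matrix (Fin d) (Fin d) ℂ)}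

/-- limits -/
lemma gd_lim (hcl : ∀ M : Matrix (Fin d) (Fin d) (Polynomial ℂ), (∀ c : ℂ, c ≠ 0 → M.map (Polynomial.eval c) ∈ S) →
      M.map (Polynomial.eval 0) ∈ S) (P R : Fin d → Polynomial ℂ)
    (h : ∀ c : ℂ, c ≠ 0 → Gd S (fun i => (P i).eval c) (fun i => (R i).eval c)) :
    Gd S (fun i => (P i).eval 0) (fun i => (R i).eval 0) := by
  refine ⟨?_, fun s => ?_⟩
  · set q : Polynomial ℂ := ∑ i, R i * P i with hq
    have hqe : ∀ c, q.eval c = (fun i => (R i).eval c) ⬝ᵥ fun i => (P i).eval c := by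
      intro c
      rw [hq, Polynomial.eval_finsetSum]
      exact Finset.sum_congr rfl fun i _ => Polynomial.eval_mul
    have h0 : q = 0 := by
      refine Polynomial.eq_zero_of_infinite_isRoot q (Set.Infinite.mono (s := ({0} : Set ℂ)ᶜ) ?_
        (Set.finite_singleton (0 : ℂ)).infinite_compl)
      intro c hc
      show q.eval c = 0
      rw [hqe]
      exact (h c hc).1
    rw [← hqe, h0, Polynomial.eval_zero]
  · set M : Matrix (Fin d) (Fin d) (Polynomial ℂ) := 1 + (Polynomial.C s : Polynomial ℂ) • vecMulVec P R with hM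
    have hMe : ∀ c : ℂ, M.map (Polynomial.eval c) = tr (fun i => (P i).eval c) (fun i => (R i).eval c) s := by
      intro c
      ext l k
      unfold tr
      rw [hM]
      simp only [Matrix.map_apply, Matrix.add_apply, Matrix.smul_apply, smul_eq_mul, vecMulVec_apply,
        Polynomial.eval_add, Polynomial.eval_mul, Polynomial.eval_C]
      congr 1
      rw [Matrix.one_apply, Matrix.one_apply]
      split_ifs <;> simp
    rw [← hMe]
    refine hcl M fun c hc => ?_
    rw [hMe]
    exact (h c hc).2 s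

/-- the directions for a form -/
def Xx (S : Submonoid (Matrix (Fin d) (Fin d) ℂ)) (ξ : Fin d → ℂ) : Submodule ℂ (Fin d → ℂ) where
  carrier := {x | Gd S x ξ}
  zero_mem' := ⟨dotProduct_zero _, fun s => by rw [tr_zero_left]; exact one_mem _⟩
  smul_mem' := fun c _ h => h.smul_left c
  add_mem' := by
    intro x y hx hy
    have hx' : Gd S x ξ := hx
    have hy' : Gd S y ξ := hy
    refine ⟨by rw [dotProduct_add, hx'.1, hy'.1, add_zero], fun s => ?_⟩
    have h1 := tr_mul_left x y ξ hy'.1 s s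
    rw [← smul_add, tr_smul_left, one_mul] at h1
    rw [← h1]
    exact mul_mem (hx'.2 s) (hy'.2 s)

lemma mem_Xx {x ξ : Fin d → ℂ} : x ∈ Xx S ξ ↔ Gd S x ξ := Iff.rfl

/-- truncation -/
def trn (j : ℕ) (x : Fin d → ℂ) : Fin d → ℂ := fun i => if j ≤ (i : ℕ) then x i else 0

lemma trn_mem {j : ℕ} {x ξ : Fin d → ℂ} (hx : Gd S x ξ) (h : ∀ i : Fin d, (i : ℕ) < j → Gd S (Pi.single i 1) ξ) :
    Gd S (trn j x) ξ := by
  have h1 : trn j x = x - ∑ i : Fin d, (if (i : ℕ) < j then x i else 0) • (Pi.single i 1 : Fin d → ℂ) := by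
    funext k
    rw [Pi.sub_apply, Finset.sum_apply, Finset.sum_eq_single k]
    · unfold trn
      simp only [Pi.smul_apply, Pi.single_eq_same, smul_eq_mul, mul_one]
      split_ifs
      · omega
      · ring
      · ring
      · omega
    · intro b _ hb
      rw [Pi.smul_apply, Pi.single_apply, if_neg (Ne.symm hb), smul_zero]
    · intro h'
      exact absurd (Finset.mem_univ _) h'
  have h2 : trn j x ∈ Xx S ξ := by
    rw [h1]
    refine (Xx S ξ).sub_mem hx (Submodule.sum_mem _ fun i _ => ?_)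
    split_ifs with hi
    · exact (Xx S ξ).smul_mem _ (h i hi)
    · rw [zero_smul]
      exact (Xx S ξ).zero_mem
  exact h2

/-- the forms which vanish at the first basis vectors -/
def Wp (d m : ℕ) : Submodule ℂ (Fin d → ℂ) where
  carrier := {ξ | ∀ i : Fin d, (i : ℕ) < m → ξ i = 0}
  zero_mem' := fun _ _ => rfl
  add_mem' := fun hx hy i hi => by rw [Pi.add_apply, hx i hi, hy i hi, add_zero]
  smul_mem' := fun c _ hx i hi => by rw [Pi.smul_apply, hx i hi, smul_zero]

lemma mem_Wp {m : ℕ} {ξ : Fin d → ℂ} : ξ ∈ Wp d m ↔ ∀ i : Fin d, (i : ℕ) < m → ξ i = 0 := Iff.rfl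

lemma Wp_E {m : ℕ} {ξ : Fin d → ℂ} (h : ξ ∈ Wp d m) (c : ℂ) : ξ ᵥ* E (cm (Am d)) c ∈ Wp d m := by
  intro k hk
  rw [vecMul_E']
  refine Finset.sum_eq_zero fun l _ => ?_
  have hkd := k.2
  rw [xt_lt ξ (show (k : ℕ) - l < d by omega), h _ (by simp only; omega), mul_zero]

variable {v φ : Fin d → ℂ} {m : ℕ}

/-- the limit of the transvections -/
lemma lim_mem (hm : m < d) (hE : ∀ c : ℂ, Nm S (E (cm (Am d)) c) (E (cm (Am d)) (-c)))
    (hcl : ∀ M : Matrix (Fin d) (Fin d) (Polynomial ℂ), (∀ c : ℂ, c ≠ 0 → M.map (Polynomial.eval c) ∈ S) →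
      M.map (Polynomial.eval 0) ∈ S) (hv : Gd S v φ) (hφ : φ ∈ Wp d m) (hφm : φ ⟨m, hm⟩ ≠ 0)
    (hvd : v ⟨d - 1, by omega⟩ ≠ 0) {j : ℕ} (hj : j < m)
    (ih : ∀ i : Fin d, (i : ℕ) < j → ∀ ξ ∈ Wp d m, Gd S (Pi.single i 1) ξ) :
    Gd S (Pi.single ⟨j, by omega⟩ 1) (Pi.single ⟨d - 1, by omega⟩ 1) := by
  set P : Fin d → Polynomial ℂ := fun i => if j ≤ (i : ℕ) then ∑ l ∈ Finset.range (d - j),
    Polynomial.C (xt v (i + l) / (l.factorial : ℂ)) * Polynomial.X ^ (d - 1 - j - l) else 0 with hP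
  set R : Fin d → Polynomial ℂ := fun k => ∑ l ∈ Finset.range (d - m),
    Polynomial.C ((-1) ^ l * (if l ≤ (k : ℕ) then xt φ (k - l) else 0) / (l.factorial : ℂ)) *
      Polynomial.X ^ (d - 1 - m - l) with hR
  have hPe : ∀ c : ℂ, c ≠ 0 → (fun i => (P i).eval c) = c ^ (d - 1 - j) • trn j (E (cm (Am d)) c⁻¹ *ᵥ v) := by
    intro c hc
    funext i
    rw [hP, Pi.smul_apply]
    unfold trn
    simp only
    split_ifs with h
    · rw [Polynomial.eval_finsetSum, E_mulVec', smul_eq_mul, Finset.mul_sum]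
      have hsub : Finset.range (d - j) ⊆ Finset.range d := by
        intro l hl
        rw [Finset.mem_range] at hl ⊢
        omega
      rw [← Finset.sum_subset hsub]
      · refine Finset.sum_congr rfl fun l hl => ?_
        rw [Finset.mem_range] at hl
        simp only [Polynomial.eval_mul, Polynomial.eval_C, Polynomial.eval_pow, Polynomial.eval_X, inv_pow]
        have h1 : c ^ (d - 1 - j) = c ^ (d - 1 - j - l) * c ^ l := by rw [← pow_add]; congr 1; omega
        rw [h1]
        field_simp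
      · intro l _ hl
        rw [Finset.mem_range] at hl
        rw [xt_ge v (by omega), mul_zero, mul_zero]
    · rw [Polynomial.eval_zero, smul_zero]
  have hRe : ∀ c : ℂ, c ≠ 0 → (fun i => (R i).eval c) = c ^ (d - 1 - m) • (φ ᵥ* E (cm (Am d)) (-c⁻¹)) := by
    intro c hc
    funext k
    rw [hR, Pi.smul_apply]
    simp only
    rw [Polynomial.eval_finsetSum, vecMul_E', smul_eq_mul, Finset.mul_sum]
    -- both sums are over the `l` with `l ≤ k` and `l < d - m`
    have hk := k.2
    set T : ℕ → ℂ := fun l => c ^ (d - 1 - m) * ((-c⁻¹) ^ l / (l.factorial : ℂ) * (if l ≤ (k : ℕ) then xt φ (k - l) else 0)) with hT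
    have hT0 : ∀ l, d - m ≤ l → T l = 0 := by
      intro l hl
      rw [hT]
      simp only
      split_ifs with h
      · rw [xt_lt φ (show (k : ℕ) - l < d by omega), hφ _ (by simp only; omega), mul_zero, mul_zero]
      · rw [mul_zero, mul_zero]
    have hT1 : ∀ l, (k : ℕ) < l → T l = 0 := by
      intro l hl
      rw [hT]
      simp only
      rw [if_neg (by omega), mul_zero, mul_zero]
    have e1 : ∑ l ∈ Finset.range ((k : ℕ) + 1), c ^ (d - 1 - m) * ((-c⁻¹) ^ l / (l.factorial : ℂ) * xt φ (k - l)) =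
        ∑ l ∈ Finset.range (d + d), T l := by
      have hsub : Finset.range ((k : ℕ) + 1) ⊆ Finset.range (d + d) := by
        intro l hl
        rw [Finset.mem_range] at hl ⊢
        omega
      rw [← Finset.sum_subset hsub]
      · refine Finset.sum_congr rfl fun l hl => ?_
        rw [Finset.mem_range] at hl
        rw [hT]
        simp only
        rw [if_pos (by omega)]
      · intro l _ hl
        rw [Finset.mem_range] at hl
        exact hT1 l (by omega)
    have e2 : ∑ l ∈ Finset.range (d - m), T l = ∑ l ∈ Finset.range (d + d), T l := by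
      have hsub : Finset.range (d - m) ⊆ Finset.range (d + d) := by
        intro l hl
        rw [Finset.mem_range] at hl ⊢
        omega
      refine Finset.sum_subset hsub ?_
      intro l _ hl
      rw [Finset.mem_range] at hl
      exact hT0 l (by omega)
    rw [e1, ← e2]
    refine Finset.sum_congr rfl fun l hl => ?_
    rw [Finset.mem_range] at hl
    rw [hT]
    simp only [Polynomial.eval_mul, Polynomial.eval_C, Polynomial.eval_pow, Polynomial.eval_X]
    have h1 : c ^ (d - 1 - m) = c ^ (d - 1 - m - l) * c ^ l := by rw [← pow_add]; congr 1; omega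
    rw [h1, neg_pow c⁻¹, inv_pow]
    field_simp
  have hlim := gd_lim hcl P R fun c hc => by
    rw [hPe c hc, hRe c hc]
    have h1 := (hE c⁻¹).gd hv
    exact ((trn_mem h1 fun i hi => ih i hi _ (Wp_E hφ _)).smul_left _).smul_right _
  have hP0 : (fun i => (P i).eval 0) = (v ⟨d - 1, by omega⟩ / ((d - 1 - j).factorial : ℂ)) •
      (Pi.single ⟨j, by omega⟩ 1 : Fin d → ℂ) := by
    funext i
    rw [hP, Pi.smul_apply, Pi.single_apply]
    simp only
    split_ifs with h h' h'
    · rw [Polynomial.eval_finsetSum, Finset.sum_eq_single (d - 1 - j)]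
      · simp only [Polynomial.eval_mul, Polynomial.eval_C, Polynomial.eval_pow, Polynomial.eval_X, Nat.sub_self, pow_zero,
          mul_one, smul_eq_mul]
        have h2 : (i : ℕ) = j := by rw [h']
        congr 1
        rw [h2, show j + (d - 1 - j) = d - 1 by omega, xt_lt v (show d - 1 < d by omega)]
      · intro l hl hl'
        rw [Finset.mem_range] at hl
        simp only [Polynomial.eval_mul, Polynomial.eval_C, Polynomial.eval_pow, Polynomial.eval_X]
        rw [zero_pow (by omega), mul_zero]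
      · intro h2
        rw [Finset.mem_range] at h2
        omega
    · have h2 : (i : ℕ) ≠ j := fun h2 => h' (Fin.ext h2)
      rw [smul_zero, Polynomial.eval_finsetSum]
      refine Finset.sum_eq_zero fun l hl => ?_
      rw [Finset.mem_range] at hl
      simp only [Polynomial.eval_mul, Polynomial.eval_C, Polynomial.eval_pow, Polynomial.eval_X]
      by_cases h3 : l = d - 1 - j
      · rw [h3, xt_ge v (by omega), zero_div, zero_mul]
      · rw [zero_pow (by omega), mul_zero]
    · exfalso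
      apply h
      rw [h']
    · rw [Polynomial.eval_zero, smul_zero]
  have hR0 : (fun i => (R i).eval 0) = ((-1) ^ (d - 1 - m) * φ ⟨m, hm⟩ / ((d - 1 - m).factorial : ℂ)) •
      (Pi.single ⟨d - 1, by omega⟩ 1 : Fin d → ℂ) := by
    funext k
    rw [hR, Pi.smul_apply, Pi.single_apply]
    simp only
    rw [Polynomial.eval_finsetSum, Finset.sum_eq_single (d - 1 - m)]
    · simp only [Polynomial.eval_mul, Polynomial.eval_C, Polynomial.eval_pow, Polynomial.eval_X, Nat.sub_self, pow_zero,
        mul_one, smul_eq_mul]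
      have hk := k.2
      by_cases h : k = ⟨d - 1, by omega⟩
      · have h2 : (k : ℕ) = d - 1 := by rw [h]
        rw [if_pos h, if_pos (by omega), mul_one, h2, show d - 1 - (d - 1 - m) = m by omega, xt_lt φ hm]
      · have h2 : (k : ℕ) ≠ d - 1 := fun h2 => h (Fin.ext h2)
        rw [if_neg h, mul_zero]
        split_ifs with h3
        · rw [xt_lt φ (show (k : ℕ) - (d - 1 - m) < d by omega), hφ _ (by simp only; omega), mul_zero, zero_div]
        · rw [mul_zero, zero_div]
    · intro l hl hl'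
      rw [Finset.mem_range] at hl
      simp only [Polynomial.eval_mul, Polynomial.eval_C, Polynomial.eval_pow, Polynomial.eval_X]
      rw [zero_pow (by omega), mul_zero]
    · intro h2
      rw [Finset.mem_range] at h2
      omega
  rw [hP0, hR0] at hlim
  have hf : ∀ a : ℕ, (a.factorial : ℂ) ≠ 0 := fun a => by exact_mod_cast a.factorial_ne_zero
  have h1 := (hlim.smul_left (v ⟨d - 1, by omega⟩ / ((d - 1 - j).factorial : ℂ))⁻¹).smul_right
    ((-1) ^ (d - 1 - m) * φ ⟨m, hm⟩ / ((d - 1 - m).factorial : ℂ))⁻¹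
  rwa [smul_smul, smul_smul, inv_mul_cancel₀ (div_ne_zero hvd (hf _)), inv_mul_cancel₀
    (div_ne_zero (mul_ne_zero (pow_ne_zero _ (by norm_num)) hφm) (hf _)), one_smul, one_smul] at h1

lemma E_single (c : ℂ) {j : ℕ} (hj : j < d) :
    trn j (E (cm (Am d)) c *ᵥ Pi.single ⟨j, hj⟩ 1) = Pi.single ⟨j, hj⟩ 1 := by
  funext i
  unfold trn
  rw [mulVec_single_one, Matrix.col_apply, E_apply, Pi.single_apply]
  split_ifs with h1 h2 h3 h3 h4
  · simp [h3]
  · exfalso
    apply h3
    exact Fin.ext (by simp only at h2 ⊢; omega)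
  · exfalso
    apply h2
    rw [h3]
  · rfl
  · exfalso
    apply h1
    rw [h4]
  · rfl

/-- **The unipotent radical is in the group.** -/
theorem uni (hm : m < d) (hd : 2 ≤ d) (hE : ∀ c : ℂ, Nm S (E (cm (Am d)) c) (E (cm (Am d)) (-c)))
    (hcl : ∀ M : Matrix (Fin d) (Fin d) (Polynomial ℂ), (∀ c : ℂ, c ≠ 0 → M.map (Polynomial.eval c) ∈ S) →
      M.map (Polynomial.eval 0) ∈ S) (hv : Gd S v φ) (hφ : φ ∈ Wp d m) (hφm : φ ⟨m, hm⟩ ≠ 0)
    (hvd : v ⟨d - 1, by omega⟩ ≠ 0) (j : ℕ) (hj : j < m) :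
    ∀ ξ ∈ Wp d m, Gd S (Pi.single ⟨j, by omega⟩ 1) ξ := by
  induction j using Nat.strong_induction_on with
  | _ j ih' =>
  have ih : ∀ i : Fin d, (i : ℕ) < j → ∀ ξ ∈ Wp d m, Gd S (Pi.single i 1) ξ := fun i hi ξ hξ =>
    ih' i hi (by omega) ξ hξ
  set e : Fin d → ℂ := Pi.single ⟨j, by omega⟩ 1 with he
  have h1 := lim_mem hm hE hcl hv hφ hφm hvd hj ih
  have hdot : φ ⬝ᵥ e = 0 := by
    rw [he, dotProduct_single_one]
    exact hφ _ hj
  -- the form `φ`
  have h2 : φ ∈ Wx S e := by
    have h3 := (hv.nm 1).gd h1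
    rw [tr_mulVec, hdot, mul_zero, zero_smul, add_zero, vecMul_tr, single_one_dotProduct] at h3
    have h4 : Pi.single (⟨d - 1, by omega⟩ : Fin d) 1 + (-1 * v ⟨d - 1, by omega⟩) • φ ∈ Wx S e := h3
    have h5 := (Wx S e).sub_mem h4 (mem_Wx.2 h1)
    rw [add_sub_cancel_left] at h5
    have h6 := (Wx S e).smul_mem (-1 * v ⟨d - 1, by omega⟩)⁻¹ h5
    rwa [smul_smul, inv_mul_cancel₀ (mul_ne_zero (by norm_num) hvd), one_smul] at h6
  -- stability
  set X : Submodule ℂ (Fin d → ℂ) := Wx S e ⊓ Wp d m with hX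
  have hXE : ∀ c : ℂ, ∀ ξ ∈ X, E (cm (Am d)).transpose c *ᵥ ξ ∈ X := by
    intro c ξ hξ
    rw [hX, Submodule.mem_inf] at hξ
    rw [← vecMul_E, hX, Submodule.mem_inf]
    refine ⟨?_, Wp_E hξ.2 c⟩
    have h3 := (hE (-c)).gd (mem_Wx.1 hξ.1)
    rw [neg_neg] at h3
    have h4 := trn_mem h3 (j := j) fun i hi => ih i hi _ (Wp_E hξ.2 c)
    rw [he, E_single] at h4
    exact h4
  have hXN : ∀ ξ ∈ X, (cm (Am d)).transpose *ᵥ ξ ∈ X := fun ξ hξ => stable_of_E hd X hXE hξ
  have hφX : φ ∈ X := Submodule.mem_inf.2 ⟨h2, hφ⟩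
  have hpow : ∀ l, (cm (Am d)).transpose ^ l *ᵥ φ ∈ X := by
    intro l
    induction l with
    | zero => rwa [pow_zero, one_mulVec]
    | succ l ihl =>
      rw [pow_succ', ← mulVec_mulVec]
      exact hXN _ ihl
  have hent : ∀ l (k : Fin d), ((cm (Am d)).transpose ^ l *ᵥ φ) k = if l ≤ (k : ℕ) then xt φ (k - l) else 0 := by
    intro l k
    rw [← transpose_pow, mulVec_transpose]
    simp only [Matrix.vecMul, dotProduct]
    have h3 : ∀ i : Fin d, φ i * (cm (Am d) ^ l) i k = if (k : ℕ) = i + l then φ i else 0 := by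
      intro i
      rw [← Pool.Agent.Y119.HY.cm_pow, Pool.Agent.Y119.HY.cm_apply, Am_pow]
      split_ifs <;> simp
    simp only [h3]
    have hk := k.2
    split_ifs with h4
    · rw [Finset.sum_eq_single (⟨(k : ℕ) - l, by omega⟩ : Fin d)]
      · rw [if_pos (by simp only; omega), xt_lt]
      · intro b _ hb
        rw [if_neg]
        intro h5
        exact hb (Fin.ext (by simp only; omega))
      · intro h5
        exact absurd (Finset.mem_univ _) h5
    · exact Finset.sum_eq_zero fun i _ => if_neg (by omega)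
  -- the basis
  have hbas : ∀ r : ℕ, ∀ k : Fin d, m ≤ (k : ℕ) → d - 1 - (k : ℕ) ≤ r → (Pi.single k 1 : Fin d → ℂ) ∈ X := by
    intro r
    induction r with
    | zero =>
      intro k hk hkr
      have hkd := k.2
      have h3 := hpow (d - 1 - m)
      have h4 : (cm (Am d)).transpose ^ (d - 1 - m) *ᵥ φ = φ ⟨m, hm⟩ • (Pi.single k 1 : Fin d → ℂ) := by
        funext a
        rw [hent, Pi.smul_apply, Pi.single_apply]
        have ha := a.2
        by_cases hak : a = k
        · rw [if_pos hak, if_pos (by rw [hak]; omega), hak, show (k : ℕ) - (d - 1 - m) = m by omega, xt_lt φ hm,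
            smul_eq_mul, mul_one]
        · have : (a : ℕ) ≠ k := fun h5 => hak (Fin.ext h5)
          rw [if_neg hak, smul_zero]
          split_ifs with h5
          · rw [xt_lt φ (show (a : ℕ) - (d - 1 - m) < d by omega), hφ _ (by simp only; omega)]
          · rfl
      rw [h4] at h3
      have h5 := X.smul_mem (φ ⟨m, hm⟩)⁻¹ h3
      rwa [smul_smul, inv_mul_cancel₀ hφm, one_smul] at h5
    | succ r ihr =>
      intro k hk hkr
      have hkd := k.2
      have h3 := hpow ((k : ℕ) - m)
      have h4 : (cm (Am d)).transpose ^ ((k : ℕ) - m) *ᵥ φ = φ ⟨m, hm⟩ • (Pi.single k 1 : Fin d → ℂ) +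
          ∑ a : Fin d, (if (k : ℕ) < a then xt φ (a - (k - m)) else 0) • (Pi.single a 1 : Fin d → ℂ) := by
        funext a
        rw [hent, Pi.add_apply, Pi.smul_apply, Finset.sum_apply, Finset.sum_eq_single a, Pi.smul_apply, Pi.single_eq_same,
          Pi.single_apply]
        · have ha := a.2
          by_cases hak : a = k
          · rw [if_pos hak, if_pos (by rw [hak]; omega), if_neg (by rw [hak]; omega), hak, show (k : ℕ) - (k - m) = m by omega,
              xt_lt φ hm, smul_eq_mul, mul_one, zero_smul, add_zero]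
          · have h6 : (a : ℕ) ≠ k := fun h5 => hak (Fin.ext h5)
            rw [if_neg hak, smul_zero, zero_add, smul_eq_mul, mul_one]
            by_cases h7 : (k : ℕ) < a
            · rw [if_pos h7, if_pos (by omega)]
            · rw [if_neg h7]
              split_ifs with h5
              · rw [xt_lt φ (show (a : ℕ) - ((k : ℕ) - m) < d by omega), hφ _ (by simp only; omega)]
              · rfl
        · intro b _ hb
          rw [Pi.smul_apply, Pi.single_apply, if_neg (Ne.symm hb), smul_zero]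
        · intro h5
          exact absurd (Finset.mem_univ _) h5
      rw [h4] at h3
      have h5 : ∑ a : Fin d, (if (k : ℕ) < a then xt φ (a - (k - m)) else 0) • (Pi.single a 1 : Fin d → ℂ) ∈ X := by
        refine Submodule.sum_mem _ fun a _ => ?_
        split_ifs with h6
        · exact X.smul_mem _ (ihr a (by omega) (by omega))
        · rw [zero_smul]
          exact X.zero_mem
      have h6 := X.sub_mem h3 h5
      rw [add_sub_cancel_right] at h6
      have h7 := X.smul_mem (φ ⟨m, hm⟩)⁻¹ h6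
      rwa [smul_smul, inv_mul_cancel₀ hφm, one_smul] at h7
  intro ξ hξ
  have h3 : ξ = ∑ a : Fin d, ξ a • (Pi.single a 1 : Fin d → ℂ) := by
    funext a
    rw [Finset.sum_apply, Finset.sum_eq_single a, Pi.smul_apply, Pi.single_eq_same, smul_eq_mul, mul_one]
    · intro b _ hb
      rw [Pi.smul_apply, Pi.single_apply, if_neg (Ne.symm hb), smul_zero]
    · intro h5
      exact absurd (Finset.mem_univ _) h5
  have h4 : ξ ∈ X := by
    rw [h3]
    refine Submodule.sum_mem _ fun a _ => ?_
    by_cases ha : (a : ℕ) < m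
    · rw [hξ a ha, zero_smul]
      exact X.zero_mem
    · exact X.smul_mem _ (hbas (d - 1 - a) a (by omega) le_rfl)
  exact mem_Wx.1 (Submodule.mem_inf.1 h4).1

end Pool.Agent.E8helper43.MX
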